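import Mathlib

set_option autoImplicit false
set_option linter.unusedSectionVars false

namespace Pool.Agent.Lib.MP_b7b920_al_h61

universe u v

section

variable {p : ℕ} [hp : Fact p.Prime]

/-- a nontrivial normal subgroup of a finite `p`-group meets the center -/
theorem exists_central {G : Type*} [Group G] [Finite G] (hG : IsPGroup p G) (N : Subgroup G)
    (hN : N.Normal) (hN0 : N ≠ ⊥) : ∃ x ∈ N, x ≠ 1 ∧ ∀ g, g * x = x * g := by
  have := (hG.of_equiv ConjAct.toConjAct).exists_fixed_point_of_prime_dvd_card_of_fixed_point N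
  have dvd : p ∣ Nat.card N := by
    have hnt : Nontrivial N := (Subgroup.nontrivial_iff_ne_bot N).mpr hN0
    obtain ⟨n, hn0, hn⟩ := (hG.to_subgroup N).nontrivial_iff_card.mp hnt
    exact hn.symm ▸ dvd_pow_self _ (ne_of_gt hn0)
  obtain ⟨x, hx, hx1⟩ := this dvd (a := 1) (by
    intro g
    apply Subtype.ext
    rw [ConjAct.Subgroup.val_conj_smul]
    simp)
  refine ⟨x.1, x.2, ?_, ?_⟩
  · intro h
    exact hx1 (Subtype.ext h.symm)
  · intro g
    have h1 := congrArg Subtype.val (hx (ConjAct.toConjAct g))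
    rw [ConjAct.Subgroup.val_conj_smul, ConjAct.smul_def, ConjAct.ofConjAct_toConjAct] at h1
    rw [mul_inv_eq_iff_eq_mul] at h1
    exact h1

theorem exists_central_mod {G : Type*} [Group G] [Finite G] (hG : IsPGroup p G) (N Z : Subgroup G)
    (hN : N.Normal) (hZ : Z.Normal) (hNZ : ¬ N ≤ Z) :
    ∃ x ∈ N, x ∉ Z ∧ ∀ g, x⁻¹ * (g * x * g⁻¹) ∈ Z := by
  have h1 : N.map (QuotientGroup.mk' Z) ≠ ⊥ := by
    intro h
    apply hNZ
    intro x hx
    have : (QuotientGroup.mk' Z) x ∈ N.map (QuotientGroup.mk' Z) := Subgroup.mem_map_of_mem _ hx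
    rw [h, Subgroup.mem_bot] at this
    rwa [QuotientGroup.mk'_apply, QuotientGroup.eq_one_iff] at this
  obtain ⟨y, hy, hy1, hyc⟩ := exists_central (hG.to_quotient Z) _
    (hN.map _ (QuotientGroup.mk'_surjective Z)) h1
  obtain ⟨x, hx, rfl⟩ := hy
  refine ⟨x, hx, ?_, ?_⟩
  · intro h
    apply hy1
    rw [QuotientGroup.mk'_apply, QuotientGroup.eq_one_iff]
    exact h
  · intro g
    rw [← QuotientGroup.eq_one_iff]
    have h2 := hyc (g : G ⧸ Z)
    change ((g : G) : G ⧸ Z) * (x : G ⧸ Z) = (x : G ⧸ Z) * (g : G ⧸ Z) at h2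
    rw [QuotientGroup.mk_mul, QuotientGroup.mk_mul, QuotientGroup.mk_mul, h2,
      QuotientGroup.mk_inv, QuotientGroup.mk_inv, mul_inv_cancel_right, inv_mul_cancel]

/-- a finite abelian `p`-group with at most `p` elements of order dividing `p` is cyclic -/
theorem isCyclic_of_card_le {A : Type*} [CommGroup A] [Finite A] (hA : IsPGroup p A)
    (h : Nat.card (powMonoidHom p : A →* A).ker ≤ p) : IsCyclic A := by
  classical
  have := Fintype.ofFinite A
  have key : ∀ k : ℕ, Nat.card (powMonoidHom (p ^ k) : A →* A).ker ≤ p ^ k := by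
    intro k
    induction k with
    | zero =>
      have h1 : (powMonoidHom (p ^ 0) : A →* A).ker = ⊥ := by
        rw [eq_bot_iff]
        intro x hx
        rw [MonoidHom.mem_ker, powMonoidHom_apply, pow_zero, pow_one] at hx
        rw [hx]
        exact Subgroup.one_mem _
      rw [h1, Subgroup.card_bot, pow_zero]
    | succ k ih =>
      let K := (powMonoidHom (p ^ (k + 1)) : A →* A).ker
      let K' := (powMonoidHom (p ^ k) : A →* A).ker
      let K1 := (powMonoidHom p : A →* A).ker
      let f : K →* K' :=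
        { toFun := fun x => ⟨x.1 ^ p, by
            have hx := x.2
            change x.1 ^ (p ^ (k + 1)) = 1 at hx
            change (x.1 ^ p) ^ (p ^ k) = 1
            rw [← pow_mul, ← pow_succ']
            exact hx⟩
          map_one' := by
            apply Subtype.ext
            exact one_pow p
          map_mul' := by
            intro x y
            apply Subtype.ext
            exact mul_pow x.1 y.1 p }
      have h1 : Nat.card K = Nat.card (K ⧸ f.ker) * Nat.card f.ker :=
        Subgroup.card_eq_card_quotient_mul_card_subgroup f.ker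
      have h2 : Nat.card (K ⧸ f.ker) ≤ Nat.card K' := by
        rw [Nat.card_congr (QuotientGroup.quotientKerEquivRange f).toEquiv]
        exact Nat.card_le_card_of_injective (fun y : f.range => (y : K')) Subtype.val_injective
      have h3 : Nat.card f.ker ≤ Nat.card K1 := by
        refine Nat.card_le_card_of_injective (fun x : f.ker => (⟨x.1.1, ?_⟩ : K1)) ?_
        · have := x.2
          rw [MonoidHom.mem_ker] at this
          exact congrArg Subtype.val this
        · intro x y hxy
          exact Subtype.ext (Subtype.ext (congrArg (fun t : K1 => t.1) hxy))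
      calc Nat.card K = Nat.card (K ⧸ f.ker) * Nat.card f.ker := h1
        _ ≤ p ^ k * p := Nat.mul_le_mul (h2.trans ih) (h3.trans h)
        _ = p ^ (k + 1) := (pow_succ p k).symm
  apply isCyclic_of_card_pow_eq_one_le
  intro n hn
  obtain ⟨k, m, hm, hnm⟩ := Nat.exists_eq_pow_mul_and_not_dvd hn.ne' p hp.out.ne_one
  have h1 : ∀ x : A, x ^ n = 1 → x ^ (p ^ k) = 1 := by
    intro x hx
    obtain ⟨j, hj⟩ := hA x
    rw [hnm, pow_mul] at hx
    have h2 : (x ^ p ^ k) ^ (p ^ j) = 1 := by
      rw [← pow_mul, mul_comm, pow_mul, hj, one_pow]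
    have h3 : Nat.Coprime (p ^ j) m :=
      Nat.Coprime.pow_left j ((Nat.Prime.coprime_iff_not_dvd hp.out).mpr hm)
    have h4 := Nat.dvd_gcd (orderOf_dvd_of_pow_eq_one h2) (orderOf_dvd_of_pow_eq_one hx)
    rw [h3, Nat.dvd_one] at h4
    exact orderOf_eq_one_iff.mp h4
  calc (Finset.univ.filter fun a : A => a ^ n = 1).card
      ≤ Nat.card (powMonoidHom (p ^ k) : A →* A).ker := by
        rw [← Fintype.card_subtype, ← Nat.card_eq_fintype_card]
        refine Nat.card_le_card_of_injective
          (fun a => (⟨a.1, h1 a.1 a.2⟩ : (powMonoidHom (p ^ k) : A →* A).ker)) ?_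
        intro x y hxy
        exact Subtype.ext (congrArg (fun t : (powMonoidHom (p ^ k) : A →* A).ker => t.1) hxy)
    _ ≤ p ^ k := key k
    _ ≤ n := by
        rw [hnm]
        exact Nat.le_mul_of_pos_right _ (Nat.pos_of_ne_zero (by rintro rfl; simp at hm))

end

end Pool.Agent.Lib.MP_b7b920_al_h61
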