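import Mathlib

set_option autoImplicit false
set_option linter.unusedSectionVars false

namespace Pool.Agent.Lib.MP_b7b920_al_h61

universe u v

section homs

variable (p : ℕ)

/-- homomorphisms `G → Z/p` killing `N` -/
def A (G : Type*) [Group G] (N : Subgroup G) : Subgroup (G →* Multiplicative (ZMod p)) where
  carrier := {f | ∀ x ∈ N, f x = 1}
  mul_mem' := by
    intro f g hf hg x hx
    rw [MonoidHom.mul_apply, hf x hx, hg x hx, one_mul]
  one_mem' := by
    intro x hx
    rfl
  inv_mem' := by
    intro f hf x hx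
    rw [MonoidHom.inv_apply, hf x hx, inv_one]

theorem mem_A {G : Type*} [Group G] {N : Subgroup G} {f : G →* Multiplicative (ZMod p)} :
    f ∈ A p G N ↔ ∀ x ∈ N, f x = 1 := Iff.rfl

/-- number of homomorphisms `G → Z/p` killing `N` -/
noncomputable def a (G : Type*) [Group G] (N : Subgroup G) : ℕ := Nat.card (A p G N)

variable [hp : Fact p.Prime]

instance finiteHom (G : Type*) [Group G] [Finite G] : Finite (G →* Multiplicative (ZMod p)) :=
  Finite.of_injective (fun f => (f : G → Multiplicative (ZMod p))) DFunLike.coe_injective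

theorem a_pos (G : Type*) [Group G] [Finite G] (N : Subgroup G) : 0 < a p G N :=
  Nat.card_pos

theorem card_le_mul {G : Type*} [Group G] [Finite G]
    (X : Subgroup (G →* Multiplicative (ZMod p))) (L : Subgroup G)
    (Y : Subgroup (L →* Multiplicative (ZMod p))) (h : ∀ f ∈ X, f.comp L.subtype ∈ Y) :
    Nat.card X ≤ Nat.card (X ⊓ A p G L : Subgroup (G →* Multiplicative (ZMod p))) * Nat.card Y := by
  let r : X →* Y :=
    { toFun := fun f => ⟨f.1.comp L.subtype, h f.1 f.2⟩
      map_one' := rfl
      map_mul' := fun f g => rfl }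
  have h1 : Nat.card X = Nat.card (X ⧸ r.ker) * Nat.card r.ker :=
    Subgroup.card_eq_card_quotient_mul_card_subgroup r.ker
  have h2 : Nat.card (X ⧸ r.ker) ≤ Nat.card Y := by
    rw [Nat.card_congr (QuotientGroup.quotientKerEquivRange r).toEquiv]
    exact Nat.card_le_card_of_injective (fun y : r.range => (y : Y)) Subtype.val_injective
  have h3 : Nat.card r.ker ≤ Nat.card (X ⊓ A p G L : Subgroup (G →* Multiplicative (ZMod p))) := by
    refine Nat.card_le_card_of_injective
      (fun f : r.ker => (⟨f.1.1, f.1.2, ?_⟩ :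
        (X ⊓ A p G L : Subgroup (G →* Multiplicative (ZMod p))))) ?_
    · intro x hx
      have := f.2
      rw [MonoidHom.mem_ker] at this
      have h4 := congrArg (fun y : Y => y.1 ⟨x, hx⟩) this
      exact h4
    · intro f g hfg
      have := congrArg Subtype.val hfg
      exact Subtype.ext (Subtype.ext this)
  rw [h1, mul_comm]
  exact Nat.mul_le_mul h3 h2

theorem a_mul {G : Type*} [Group G] [Finite G] (N L : Subgroup G) (hNL : N ≤ L) :
    a p G N ≤ a p G L * a p L (N.subgroupOf L) := by
  have := card_le_mul p (A p G N) L (A p L (N.subgroupOf L)) (by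
    intro f hf x hx
    exact hf x.1 hx)
  have h2 : A p G N ⊓ A p G L = A p G L := by
    apply inf_eq_right.mpr
    intro f hf x hx
    exact hf x (hNL hx)
  rw [h2] at this
  exact this

theorem a_mono {G : Type*} [Group G] [Finite G] {N L : Subgroup G} (hNL : N ≤ L) :
    a p G L ≤ a p G N := by
  refine Nat.card_le_card_of_injective
    (fun f : A p G L => (⟨f.1, fun x hx => f.2 x (hNL hx)⟩ : A p G N)) ?_
  intro f g hfg
  exact Subtype.ext (congrArg (fun t : A p G N => t.1) hfg)

theorem pow_eq_one (G : Type*) [Group G] (f : G →* Multiplicative (ZMod p)) : f ^ p = 1 := by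
  refine MonoidHom.ext fun x => ?_
  rw [MonoidHom.pow_apply, MonoidHom.one_apply]
  apply Multiplicative.toAdd.injective
  rw [toAdd_pow]
  simp

theorem isPGroup_hom (G : Type*) [Group G] : IsPGroup p (G →* Multiplicative (ZMod p)) := by
  intro f
  exact ⟨1, by rw [pow_one]; exact pow_eq_one p G f⟩

/-- strict inclusions cost a factor `p` -/
theorem p_mul_card_le {G : Type*} [Group G] [Finite G]
    {X Y : Subgroup (G →* Multiplicative (ZMod p))} (hXY : X < Y) :
    p * Nat.card X ≤ Nat.card Y := by
  have h1 : Nat.card X * (X.subgroupOf Y).index = Nat.card Y := by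
    have := Subgroup.card_mul_index (X.subgroupOf Y)
    rw [← this]
    congr 1
    exact (Nat.card_congr (Subgroup.subgroupOfEquivOfLe hXY.le).toEquiv).symm
  have hY : IsPGroup p Y := (isPGroup_hom p G).to_subgroup Y
  obtain ⟨n, hn⟩ := hY.index (X.subgroupOf Y)
  have hn0 : n ≠ 0 := by
    intro h0
    rw [h0, pow_zero, Subgroup.index_eq_one, Subgroup.subgroupOf_eq_top] at hn
    exact absurd hn (not_le_of_gt hXY)
  rw [← h1, hn, mul_comm]
  exact Nat.mul_le_mul_left _ (Nat.le_self_pow hn0 p)

theorem p_mul_a_le {G : Type*} [Group G] [Finite G] {N L : Subgroup G} (hNL : N ≤ L)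
    {f : G →* Multiplicative (ZMod p)} (hf : f ∈ A p G N) (hf' : f ∉ A p G L) :
    p * a p G L ≤ a p G N := by
  apply p_mul_card_le
  refine lt_of_le_of_ne ?_ ?_
  · intro f hf x hx
    exact hf x (hNL hx)
  · intro h
    exact hf' (h ▸ hf)

theorem a_top {G : Type*} [Group G] [Finite G] : a p G ⊤ = 1 := by
  have : A p G ⊤ = ⊥ := by
    rw [eq_bot_iff]
    intro f hf
    rw [Subgroup.mem_bot]
    ext x
    rw [hf x (Subgroup.mem_top x)]
    rfl
  rw [a, this]
  exact Nat.card_unique

/-- transport along a surjection -/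
theorem a_surj {G H : Type*} [Group G] [Group H] (π : G →* H)
    (hπ : Function.Surjective π) : a p G π.ker = a p H ⊥ := by
  refine (Nat.card_congr (Equiv.ofBijective
    (fun f : A p H ⊥ => (⟨f.1.comp π, fun x hx => ?_⟩ : A p G π.ker)) ⟨?_, ?_⟩)).symm
  · rw [MonoidHom.comp_apply, (MonoidHom.mem_ker).mp hx, map_one]
  · intro f g hfg
    have h1 : f.1.comp π = g.1.comp π := congrArg Subtype.val hfg
    apply Subtype.ext
    ext y
    obtain ⟨x, rfl⟩ := hπ y
    exact congrArg Multiplicative.toAdd (DFunLike.congr_fun h1 x)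
  · intro f
    let e := (MonoidHom.liftOfSurjective π hπ) (⟨f.1, fun x hx => f.2 x hx⟩ :
      {g : G →* Multiplicative (ZMod p) // π.ker ≤ g.ker})
    refine ⟨⟨e, ?_⟩, ?_⟩
    · intro x hx
      rw [Subgroup.mem_bot] at hx
      rw [hx, map_one]
    · apply Subtype.ext
      ext x
      have : e (π x) = f.1 x :=
        MonoidHom.liftOfRightInverse_comp_apply π _ (Function.rightInverse_surjInv hπ) _ x
      exact congrArg Multiplicative.toAdd this

theorem a_cyclic {G : Type*} [Group G] [Finite G] [h : IsCyclic G] : a p G ⊥ ≤ p := by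
  obtain ⟨g, hg⟩ := h.exists_generator
  have : Nat.card (Multiplicative (ZMod p)) = p := by
    rw [Nat.card_congr Multiplicative.toAdd, Nat.card_zmod]
  calc a p G ⊥ ≤ Nat.card (Multiplicative (ZMod p)) := by
        refine Nat.card_le_card_of_injective (fun f : A p G ⊥ => f.1 g) ?_
        intro f f' hff
        apply Subtype.ext
        refine MonoidHom.ext fun x => ?_
        obtain ⟨k, rfl⟩ := Subgroup.mem_zpowers_iff.mp (hg x)
        have h5 : f.1 g = f'.1 g := hff
        rw [map_zpow, map_zpow, h5]
    _ = p := this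

/-- for a finite `p`-group the number of homomorphisms to `Z/p` is at most the order -/
theorem a_le_card : ∀ (n : ℕ) {G : Type u} [Group G] [Finite G], IsPGroup p G → Nat.card G = n →
    a p G ⊥ ≤ Nat.card G := by
  intro n
  induction n using Nat.strong_induction_on with
  | _ n ih =>
    intro G _ _ hG hn
    by_cases hs : Subsingleton G
    · have h1 : (⊥ : Subgroup G) = ⊤ := Subsingleton.elim _ _
      rw [h1, a_top p]
      exact Nat.card_pos
    · rw [not_subsingleton_iff_nontrivial] at hs
      have hc := hG.center_nontrivial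
      obtain ⟨⟨z, hz⟩, hz1⟩ := exists_ne (1 : Subgroup.center G)
      have hz1' : z ≠ 1 := fun h => hz1 (Subtype.ext h)
      let Z := Subgroup.zpowers z
      have hZn : Z.Normal := by
        constructor
        intro x hx g
        obtain ⟨k, rfl⟩ := Subgroup.mem_zpowers_iff.mp hx
        have : g * z ^ k * g⁻¹ = z ^ k := by
          have h2 : Commute g z := (Subgroup.mem_center_iff.mp hz g)
          rw [(h2.zpow_right k).eq, mul_inv_cancel_right]
        rw [this]
        exact hx
      have h3 := a_mul p (⊥ : Subgroup G) Z bot_le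
      have h4 : a p Z ((⊥ : Subgroup G).subgroupOf Z) ≤ Nat.card Z := by
        have e1 : ((⊥ : Subgroup G).subgroupOf Z) = ⊥ := by
          rw [Subgroup.bot_subgroupOf]
        rw [e1]
        by_cases hZ : Nat.card Z < n
        · exact ih (Nat.card Z) hZ (hG.to_subgroup Z) rfl
        · -- then `Z` is everything, cyclic
          have hcyc : IsCyclic Z := Subgroup.isCyclic_zpowers z
          refine (a_cyclic p).trans ?_
          have hZnt : Nontrivial Z := ⟨⟨⟨z, Subgroup.mem_zpowers z⟩, 1, fun h => hz1' (congrArg Subtype.val h)⟩⟩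
          obtain ⟨k, hk0, hk⟩ := (hG.to_subgroup Z).nontrivial_iff_card.mp hZnt
          rw [hk]
          exact Nat.le_self_pow (by omega) p
      have h5 : a p G Z ≤ Nat.card (G ⧸ Z) := by
        have e2 := a_surj p (QuotientGroup.mk' Z) (QuotientGroup.mk'_surjective Z)
        rw [QuotientGroup.ker_mk'] at e2
        rw [e2]
        have hlt : Nat.card (G ⧸ Z) < n := by
          have h6 := Subgroup.card_eq_card_quotient_mul_card_subgroup Z
          rw [hn] at h6
          have h7 : 1 < Nat.card Z := by
            rw [Subgroup.one_lt_card_iff_ne_bot]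
            intro h
            exact hz1' ((Subgroup.zpowers_eq_bot).mp h)
          have h8 : 0 < Nat.card (G ⧸ Z) := Nat.card_pos
          nlinarith
        exact ih _ hlt (hG.to_quotient Z) rfl
      calc a p G ⊥ ≤ a p G Z * a p Z ((⊥ : Subgroup G).subgroupOf Z) := h3
        _ ≤ Nat.card (G ⧸ Z) * Nat.card Z := Nat.mul_le_mul h5 h4
        _ = Nat.card G := (Subgroup.card_eq_card_quotient_mul_card_subgroup Z).symm

end homs

end Pool.Agent.Lib.MP_b7b920_al_h61
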