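import Mathlib
import Pool.Agent.Lib.MP_b7b920_al_h61.Basic

set_option autoImplicit false
set_option linter.unusedSectionVars false

namespace Pool.Agent.Lib.MP_b7b920_al_h61

universe u v

section reps

variable {G : Type*} [Group G] {V : Type*} [AddCommGroup V] [Module ℚ V]

/-- restriction to an invariant subspace -/
def subR (ρ : G →* Module.End ℚ V) (W : Submodule ℚ V) (h : ∀ g, ∀ w ∈ W, ρ g w ∈ W) :
    G →* Module.End ℚ W where
  toFun g := (ρ g).restrict (h g)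
  map_one' := by
    ext w
    rw [LinearMap.restrict_coe_apply, map_one]
    rfl
  map_mul' := by
    intro x y
    ext w
    rw [LinearMap.restrict_coe_apply, map_mul]
    rfl

theorem subR_apply (ρ : G →* Module.End ℚ V) (W : Submodule ℚ V) (h : ∀ g, ∀ w ∈ W, ρ g w ∈ W)
    (g : G) (w : W) : ((subR ρ W h g w : W) : V) = ρ g w := rfl

theorem mem_ker_subR {ρ : G →* Module.End ℚ V} {W : Submodule ℚ V}
    {h : ∀ g, ∀ w ∈ W, ρ g w ∈ W} {g : G} :
    g ∈ (subR ρ W h).ker ↔ ∀ w ∈ W, ρ g w = w := by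
  rw [MonoidHom.mem_ker]
  constructor
  · intro hg w hw
    have := congrArg (fun f : Module.End ℚ W => ((f ⟨w, hw⟩ : W) : V)) hg
    exact this
  · intro hg
    ext w
    exact hg w.1 w.2

/-- action on the quotient by an invariant subspace -/
def quoR (ρ : G →* Module.End ℚ V) (W : Submodule ℚ V) (h : ∀ g, ∀ w ∈ W, ρ g w ∈ W) :
    G →* Module.End ℚ (V ⧸ W) where
  toFun g := W.mapQ W (ρ g) (h g)
  map_one' := by
    apply LinearMap.ext
    intro w
    obtain ⟨w, rfl⟩ := Submodule.Quotient.mk_surjective _ w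
    rw [Submodule.mapQ_apply, map_one]
    rfl
  map_mul' := by
    intro x y
    apply LinearMap.ext
    intro w
    obtain ⟨w, rfl⟩ := Submodule.Quotient.mk_surjective _ w
    rw [Submodule.mapQ_apply, map_mul]
    rfl

theorem mem_ker_quoR {ρ : G →* Module.End ℚ V} {W : Submodule ℚ V}
    {h : ∀ g, ∀ w ∈ W, ρ g w ∈ W} {g : G} :
    g ∈ (quoR ρ W h).ker ↔ ∀ v, ρ g v - v ∈ W := by
  rw [MonoidHom.mem_ker]
  constructor
  · intro hg v
    have := congrArg (fun f : Module.End ℚ (V ⧸ W) => f (Submodule.Quotient.mk v)) hg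
    have h2 : (Submodule.Quotient.mk (ρ g v) : V ⧸ W) = Submodule.Quotient.mk v := this
    rwa [Submodule.Quotient.eq] at h2
  · intro hg
    apply LinearMap.ext
    intro v
    obtain ⟨v, rfl⟩ := Submodule.Quotient.mk_surjective _ v
    change (Submodule.Quotient.mk (ρ g v) : V ⧸ W) = Submodule.Quotient.mk v
    rw [Submodule.Quotient.eq]
    exact hg v

/-- an element of finite order acting trivially on `W` and on `V / W` acts trivially -/
theorem unipotent_trivial (ρ : G →* Module.End ℚ V) (W : Submodule ℚ V) {g : G}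
    (hfin : IsOfFinOrder g) (h1 : ∀ w ∈ W, ρ g w = w) (h2 : ∀ v, ρ g v - v ∈ W) : ρ g = 1 := by
  obtain ⟨n, hn, hgn⟩ := isOfFinOrder_iff_pow_eq_one.mp hfin
  apply LinearMap.ext
  intro v
  have key : ∀ k : ℕ, (ρ g ^ k) v = v + (k : ℚ) • (ρ g v - v) := by
    intro k
    induction k with
    | zero => simp
    | succ k ih =>
      rw [pow_succ', Module.End.mul_apply, ih, map_add, map_smul, h1 _ (h2 v)]
      push_cast
      module
  have h3 := key n
  rw [← map_pow, hgn, map_one, Module.End.one_apply] at h3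
  have h4 : (n : ℚ) • (ρ g v - v) = 0 := by
    have := h3
    rw [left_eq_add] at this
    exact this
  rw [smul_eq_zero] at h4
  rcases h4 with h4 | h4
  · exfalso
    have : n = 0 := by exact_mod_cast h4
    omega
  · rw [Module.End.one_apply]
    exact sub_eq_zero.mp h4

theorem ker_inf [Finite G] (ρ : G →* Module.End ℚ V) (W : Submodule ℚ V)
    (h : ∀ g, ∀ w ∈ W, ρ g w ∈ W) : (subR ρ W h).ker ⊓ (quoR ρ W h).ker = ρ.ker := by
  ext g
  rw [Subgroup.mem_inf, mem_ker_subR, mem_ker_quoR]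
  constructor
  · rintro ⟨h1, h2⟩
    exact unipotent_trivial ρ W (isOfFinOrder_of_finite g) h1 h2
  · intro hg
    rw [MonoidHom.mem_ker] at hg
    constructor
    · intro w _
      rw [hg]; rfl
    · intro v
      rw [hg, Module.End.one_apply, sub_self]
      exact W.zero_mem

end reps

section main

variable (p : ℕ) [hp : Fact p.Prime]

/-- the two statements of Lemma D for a representation -/
def Good (G : Type*) [Group G] (N : Subgroup G) (d : ℕ) : Prop :=
  (a p G N) ^ (p - 1) ≤ p ^ d ∧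
  ∀ K : Subgroup G, K.Normal → (∀ f ∈ A p G N, ∀ x ∈ K, f x = 1) → N ≠ ⊤ →
    (p * a p K (N.subgroupOf K)) ^ (p - 1) ≤ p ^ d

/-- all representations of dimension `n` are good -/
def Main (n : ℕ) : Prop :=
  ∀ (G : Type u) [Group G] [Finite G], IsPGroup p G → ∀ (V : Type v) [AddCommGroup V] [Module ℚ V]
    [FiniteDimensional ℚ V] (ρ : G →* Module.End ℚ V), Module.finrank ℚ V = n → Good p G ρ.ker n

theorem Good.sum_aux {G : Type u} [Group G] [Finite G] (hG : IsPGroup p G) {d₁ d₂ : ℕ}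
    {V₁ V₂ : Type v} [AddCommGroup V₁] [Module ℚ V₁] [FiniteDimensional ℚ V₁]
    [AddCommGroup V₂] [Module ℚ V₂] [FiniteDimensional ℚ V₂]
    (ρ₁ : G →* Module.End ℚ V₁) (ρ₂ : G →* Module.End ℚ V₂)
    (hd₁ : Module.finrank ℚ V₁ = d₁) (hd₂ : Module.finrank ℚ V₂ = d₂)
    (h₁ : Main.{u, v} p d₁) (h₂ : Main.{u, v} p d₂) (K : Subgroup G) (hK : K.Normal)
    (hf : ∀ f ∈ A p G (ρ₁.ker ⊓ ρ₂.ker), ∀ x ∈ K, f x = 1) (htop : ρ₁.ker ≠ ⊤) :
    (p * a p K ((ρ₁.ker ⊓ ρ₂.ker).subgroupOf K)) ^ (p - 1) ≤ p ^ (d₁ + d₂) := by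
  have e1 := (h₁ G hG V₁ ρ₁ hd₁).2 K hK (fun f hf' x hx =>
    hf f (fun y hy => hf' y hy.1) x hx) htop
  let L : Subgroup K := ρ₁.ker.subgroupOf K
  have e2 := (h₂ L ((hG.to_subgroup K).to_subgroup L) V₂
    (ρ₂.comp (K.subtype.comp L.subtype)) hd₂).1
  have e3 := a_mul p ((ρ₁.ker ⊓ ρ₂.ker).subgroupOf K) L (by
    intro x hx
    exact hx.1)
  have e4 : ((ρ₁.ker ⊓ ρ₂.ker).subgroupOf K).subgroupOf L =
      (ρ₂.comp (K.subtype.comp L.subtype)).ker := by
    ext x
    constructor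
    · intro hx
      exact hx.2
    · intro hx
      exact ⟨x.2, hx⟩
  rw [e4] at e3
  calc (p * a p K ((ρ₁.ker ⊓ ρ₂.ker).subgroupOf K)) ^ (p - 1)
      ≤ (p * (a p K L * a p L (ρ₂.comp (K.subtype.comp L.subtype)).ker)) ^ (p - 1) :=
        Nat.pow_le_pow_left (Nat.mul_le_mul_left _ e3) _
    _ = (p * a p K L) ^ (p - 1) * (a p L (ρ₂.comp (K.subtype.comp L.subtype)).ker) ^ (p - 1) := by
        rw [← mul_assoc, mul_pow]
    _ ≤ p ^ d₁ * p ^ d₂ := Nat.mul_le_mul e1 e2
    _ = p ^ (d₁ + d₂) := (pow_add _ _ _).symm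

theorem Good.sum {G : Type u} [Group G] [Finite G] (hG : IsPGroup p G) {d₁ d₂ : ℕ}
    {V₁ V₂ : Type v} [AddCommGroup V₁] [Module ℚ V₁] [FiniteDimensional ℚ V₁]
    [AddCommGroup V₂] [Module ℚ V₂] [FiniteDimensional ℚ V₂]
    (ρ₁ : G →* Module.End ℚ V₁) (ρ₂ : G →* Module.End ℚ V₂)
    (hd₁ : Module.finrank ℚ V₁ = d₁) (hd₂ : Module.finrank ℚ V₂ = d₂)
    (h₁ : Main.{u, v} p d₁) (h₂ : Main.{u, v} p d₂) :
    Good p G (ρ₁.ker ⊓ ρ₂.ker) (d₁ + d₂) := by
  constructor
  · have e1 := (h₁ G hG V₁ ρ₁ hd₁).1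
    have e2 := (h₂ ρ₁.ker (hG.to_subgroup _) V₂ (ρ₂.comp ρ₁.ker.subtype) hd₂).1
    have e3 := a_mul p (ρ₁.ker ⊓ ρ₂.ker) ρ₁.ker inf_le_left
    have e4 : (ρ₁.ker ⊓ ρ₂.ker).subgroupOf ρ₁.ker = (ρ₂.comp ρ₁.ker.subtype).ker := by
      ext x
      constructor
      · intro hx
        exact hx.2
      · intro hx
        exact ⟨x.2, hx⟩
    rw [e4] at e3
    calc (a p G (ρ₁.ker ⊓ ρ₂.ker)) ^ (p - 1)
        ≤ (a p G ρ₁.ker * a p ρ₁.ker (ρ₂.comp ρ₁.ker.subtype).ker) ^ (p - 1) :=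
          Nat.pow_le_pow_left e3 _
      _ = (a p G ρ₁.ker) ^ (p - 1) * (a p ρ₁.ker (ρ₂.comp ρ₁.ker.subtype).ker) ^ (p - 1) :=
          mul_pow _ _ _
      _ ≤ p ^ d₁ * p ^ d₂ := Nat.mul_le_mul e1 e2
      _ = p ^ (d₁ + d₂) := (pow_add _ _ _).symm
  · intro K hK hf htop
    by_cases ht : ρ₁.ker = ⊤
    · have ht2 : ρ₂.ker ≠ ⊤ := by
        intro h
        apply htop
        rw [ht, h, inf_top_eq]
      have := Good.sum_aux p hG ρ₂ ρ₁ hd₂ hd₁ h₂ h₁ K hK (by rw [inf_comm]; exact hf) ht2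
      rw [inf_comm, add_comm]
      exact this
    · exact Good.sum_aux p hG ρ₁ ρ₂ hd₁ hd₂ h₁ h₂ K hK hf ht

/-- the reducible case -/
theorem good_of_reducible {n : ℕ} (ih : ∀ m < n, Main.{u, v} p m)
    {G : Type u} [Group G] [Finite G] (hG : IsPGroup p G)
    {V : Type v} [AddCommGroup V] [Module ℚ V] [FiniteDimensional ℚ V]
    (ρ : G →* Module.End ℚ V) (hn : Module.finrank ℚ V = n)
    (W : Submodule ℚ V) (h : ∀ g, ∀ w ∈ W, ρ g w ∈ W) (hW0 : W ≠ ⊥) (hW1 : W ≠ ⊤) :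
    Good p G ρ.ker n := by
  have h1 : Module.finrank ℚ (V ⧸ W) + Module.finrank ℚ W = n := by
    rw [← hn]
    exact Submodule.finrank_quotient_add_finrank W
  have h2 : 0 < Module.finrank ℚ W := Submodule.one_le_finrank_iff.mpr hW0
  have h3 : Module.finrank ℚ W < n := by
    rw [← hn]
    exact Submodule.finrank_lt hW1
  have := Good.sum p hG (subR ρ W h) (quoR ρ W h) rfl rfl (ih _ h3) (ih _ (by omega))
  rw [ker_inf] at this
  rw [show n = Module.finrank ℚ W + Module.finrank ℚ (V ⧸ W) by omega]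
  exact this

/-- reduction to faithful representations -/
theorem good_of_faithful_quotient {n : ℕ} {G H : Type*} [Group G] [Group H] [Finite G] [Finite H]
    (π : G →* H) (hπ : Function.Surjective π) (hgood : Good p H ⊥ n) : Good p G π.ker n := by
  constructor
  · rw [a_surj p π hπ]
    exact hgood.1
  · intro K hK hf htop
    have h1 := hgood.2 (K.map π) (hK.map π hπ) (by
      intro f _ x hx
      obtain ⟨y, hy, rfl⟩ := hx
      exact hf (f.comp π) (by
        intro z hz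
        rw [MonoidHom.comp_apply, (MonoidHom.mem_ker).mp hz, map_one]) y hy) (by
      intro h
      apply htop
      rw [eq_top_iff]
      intro x _
      rw [MonoidHom.mem_ker, ← Subgroup.mem_bot, h]
      exact Subgroup.mem_top _)
    rw [Subgroup.bot_subgroupOf] at h1
    have e2 := a_surj p (π.subgroupMap K) (π.subgroupMap_surjective K)
    have e3 : (π.subgroupMap K).ker = π.ker.subgroupOf K := by
      ext x
      rw [MonoidHom.mem_ker, Subgroup.mem_subgroupOf, MonoidHom.mem_ker, Subtype.ext_iff]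
      rfl
    rw [e3] at e2
    rw [e2]
    exact h1

end main

end Pool.Agent.Lib.MP_b7b920_al_h61
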