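import Mathlib
import Pool.Agent.Lib.MP_b7b920_al_h61.Rep
import Pool.Agent.Lib.MP_b7b920_al_h61.PGrp

set_option autoImplicit false
set_option linter.unusedSectionVars false

namespace Pool.Agent.Lib.MP_b7b920_al_h61

universe u v

section

variable {p : ℕ} [hp : Fact p.Prime]

theorem dim_bound {G : Type*} [Group G] {V : Type*} [AddCommGroup V] [Module ℚ V]
    [FiniteDimensional ℚ V] (ρ : G →* Module.End ℚ V) (hinj : Function.Injective ρ) (g : G) (k : ℕ)
    (hk : 0 < k) (hg : orderOf g = p ^ k) : p ^ (k - 1) * (p - 1) ≤ Module.finrank ℚ V := by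
  have h1 : Polynomial.aeval (ρ g) (Polynomial.X ^ (p ^ k) - 1 : Polynomial ℚ) = 0 := by
    rw [map_sub, map_pow, Polynomial.aeval_X, map_one, ← map_pow, ← hg, pow_orderOf_eq_one,
      map_one, sub_self]
  have h2 : Polynomial.aeval (ρ g) (Polynomial.X ^ (p ^ (k - 1)) - 1 : Polynomial ℚ) ≠ 0 := by
    rw [map_sub, map_pow, Polynomial.aeval_X, map_one, ← map_pow, sub_ne_zero, ← map_one ρ]
    intro h
    have h3 := hinj h
    have h4 := orderOf_dvd_of_pow_eq_one h3
    rw [hg] at h4
    have h5 := (Nat.pow_dvd_pow_iff_le_right hp.out.one_lt).mp h4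
    omega
  have h3 : Polynomial.cyclotomic (p ^ k) ℚ * (Polynomial.X ^ (p ^ (k - 1)) - 1) =
      Polynomial.X ^ (p ^ k) - 1 := by
    have := Polynomial.cyclotomic_prime_pow_mul_X_pow_sub_one ℚ p (k - 1)
    rwa [Nat.sub_add_cancel hk] at this
  have hirr : Irreducible (Polynomial.cyclotomic (p ^ k) ℚ) :=
    Polynomial.cyclotomic.irreducible_rat (pow_pos hp.out.pos k)
  have h4 : minpoly ℚ (ρ g) ∣ Polynomial.cyclotomic (p ^ k) ℚ * (Polynomial.X ^ (p ^ (k - 1)) - 1) := by
    rw [h3]
    exact minpoly.dvd ℚ _ h1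
  have h5 : Polynomial.cyclotomic (p ^ k) ℚ ∣ minpoly ℚ (ρ g) := by
    by_contra hnd
    have hcop : IsCoprime (Polynomial.cyclotomic (p ^ k) ℚ) (minpoly ℚ (ρ g)) :=
      (hirr.coprime_iff_not_dvd).mpr hnd
    have h6 := hcop.symm.dvd_of_dvd_mul_left h4
    apply h2
    obtain ⟨q, hq⟩ := h6
    rw [hq, map_mul, minpoly.aeval, zero_mul]
  have h6 := h5.trans (LinearMap.minpoly_dvd_charpoly (ρ g))
  have h7 := Polynomial.natDegree_le_of_dvd h6 (LinearMap.charpoly_monic (ρ g)).ne_zero
  rw [Polynomial.natDegree_cyclotomic, LinearMap.charpoly_natDegree,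
    Nat.totient_prime_pow hp.out hk] at h7
  exact h7

theorem exists_hom {Q : Type*} [Group Q] [Finite Q] [Nontrivial Q] (hQ : IsPGroup p Q) :
    ∃ f : Q →* Multiplicative (ZMod p), ∃ x, f x ≠ 1 := by
  obtain ⟨n, hn0, hn⟩ := hQ.nontrivial_iff_card.mp inferInstance
  obtain ⟨H, hH⟩ := Sylow.exists_subgroup_card_pow_prime p (n := n - 1) (G := Q) (by
    rw [hn]
    exact Nat.pow_dvd_pow p (by omega))
  have hidx : H.index = p := by
    have h1 := Subgroup.card_mul_index H
    rw [hH, hn] at h1
    have h2 : p ^ n = p ^ (n - 1) * p := by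
      rw [← pow_succ, Nat.sub_add_cancel hn0]
    rw [h2] at h1
    exact Nat.eq_of_mul_eq_mul_left (pow_pos hp.out.pos _) h1
  have hnorm : H.Normal := by
    apply Subgroup.normal_of_index_eq_minFac_card
    rw [hidx, hn, Nat.Prime.pow_minFac hp.out (by omega)]
  have e : Q ⧸ H ≃* Multiplicative (ZMod p) := by
    refine mulEquivOfPrimeCardEq (p := p) ?_ ?_
    · exact hidx
    · rw [Nat.card_congr Multiplicative.toAdd, Nat.card_zmod]
  refine ⟨e.toMonoidHom.comp (QuotientGroup.mk' H), ?_⟩
  have hne : H ≠ ⊤ := by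
    intro h
    rw [h, Subgroup.index_top] at hidx
    exact hp.out.ne_one hidx.symm
  obtain ⟨x, hx⟩ : ∃ x, x ∉ H := by
    by_contra hcon
    push Not at hcon
    exact hne (Subgroup.eq_top_iff' H |>.mpr hcon)
  refine ⟨x, ?_⟩
  intro h
  have h1 : e (x : Q ⧸ H) = 1 := h
  rw [e.map_eq_one_iff, QuotientGroup.eq_one_iff] at h1
  exact hx h1

theorem p_mul_card_subgroup {Q : Type*} [Group Q] [Finite Q] (hQ : IsPGroup p Q) (H : Subgroup Q)
    (hH : H ≠ ⊤) : p * Nat.card H ≤ Nat.card Q := by
  obtain ⟨n, hn⟩ := hQ.index H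
  have hn0 : n ≠ 0 := by
    intro h0
    rw [h0, pow_zero, Subgroup.index_eq_one] at hn
    exact hH hn
  rw [← Subgroup.card_mul_index H, hn, mul_comm]
  exact Nat.mul_le_mul_left _ (Nat.le_self_pow hn0 p)

/-- self-centralising abelian normal subgroups exist -/
theorem exists_max_abelian {G : Type*} [Group G] [Finite G] (hG : IsPGroup p G) :
    ∃ A : Subgroup G, A.Normal ∧ (∀ x ∈ A, ∀ y ∈ A, x * y = y * x) ∧
      ∀ x, (∀ y ∈ A, x * y = y * x) → x ∈ A := by
  let S : Set (Subgroup G) := {A | A.Normal ∧ ∀ x ∈ A, ∀ y ∈ A, x * y = y * x}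
  have hS : S.Nonempty := ⟨⊥, Subgroup.normal_bot, by
    intro x hx y hy
    rw [Subgroup.mem_bot] at hx hy
    rw [hx, hy]⟩
  obtain ⟨A, hA⟩ := (Set.toFinite S).exists_maximal hS
  refine ⟨A, hA.prop.1, hA.prop.2, ?_⟩
  by_contra hcon
  push Not at hcon
  obtain ⟨x, hx, hxA⟩ := hcon
  have hAn := hA.prop.1
  let C := Subgroup.centralizer (A : Set G)
  have hC : C.Normal := by
    constructor
    intro c hc g
    rw [Subgroup.mem_centralizer_iff] at hc ⊢
    intro a ha
    have h1 : g⁻¹ * a * g ∈ A := by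
      have := hAn.conj_mem a ha g⁻¹
      rwa [inv_inv] at this
    have h2 := hc _ h1
    calc a * (g * c * g⁻¹) = g * ((g⁻¹ * a * g) * c) * g⁻¹ := by group
      _ = g * (c * (g⁻¹ * a * g)) * g⁻¹ := by rw [h2]
      _ = g * c * g⁻¹ * a := by group
  have hCA : ¬ C ≤ A := by
    intro h
    apply hxA
    apply h
    rw [Subgroup.mem_centralizer_iff]
    intro y hy
    exact (hx y hy).symm
  obtain ⟨y, hyC, hyA, hyg⟩ := exists_central_mod hG C A hC hAn hCA
  rw [Subgroup.mem_centralizer_iff] at hyC
  let A' := Subgroup.closure ((A : Set G) ∪ {y})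
  have hyA' : y ∈ A' := Subgroup.subset_closure (Or.inr rfl)
  have hAA' : A ≤ A' := fun a ha => Subgroup.subset_closure (Or.inl ha)
  have hA'n : A'.Normal := by
    constructor
    intro z hz g
    induction hz using Subgroup.closure_induction with
    | mem z hz =>
      rcases hz with hz | hz
      · exact hAA' (hAn.conj_mem z hz g)
      · rw [Set.mem_singleton_iff] at hz
        subst hz
        have h1 : g * z * g⁻¹ = z * (z⁻¹ * (g * z * g⁻¹)) := by group
        rw [h1]
        exact A'.mul_mem hyA' (hAA' (hyg g))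
    | one => rw [mul_one, mul_inv_cancel]; exact A'.one_mem
    | mul a b _ _ ha hb =>
      have : g * (a * b) * g⁻¹ = (g * a * g⁻¹) * (g * b * g⁻¹) := by group
      rw [this]
      exact A'.mul_mem ha hb
    | inv a _ ha =>
      have : g * a⁻¹ * g⁻¹ = (g * a * g⁻¹)⁻¹ := by group
      rw [this]
      exact A'.inv_mem ha
  have hgen : ∀ a ∈ (A : Set G) ∪ {y}, ∀ b ∈ (A : Set G) ∪ {y}, a * b = b * a := by
    intro a ha b hb
    rcases ha with ha | ha <;> rcases hb with hb | hb
    · exact hA.prop.2 a ha b hb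
    · rw [Set.mem_singleton_iff] at hb
      rw [hb]
      exact hyC a ha
    · rw [Set.mem_singleton_iff] at ha
      rw [ha]
      exact (hyC b hb).symm
    · rw [Set.mem_singleton_iff] at ha hb
      rw [ha, hb]
  have h1 : A' ≤ Subgroup.centralizer ((A : Set G) ∪ {y}) := by
    rw [Subgroup.closure_le]
    intro a ha
    exact Subgroup.mem_centralizer_iff.mpr (fun b hb => hgen b hb a ha)
  have h2 : ∀ a ∈ A', ∀ b ∈ A', a * b = b * a := by
    intro a ha b hb
    have h3 : A' ≤ Subgroup.centralizer {a} := by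
      rw [Subgroup.closure_le]
      intro c hc
      rw [SetLike.mem_coe, Subgroup.mem_centralizer_iff]
      intro d hd
      rw [Set.mem_singleton_iff] at hd
      subst hd
      exact (Subgroup.mem_centralizer_iff.mp (h1 ha) c hc).symm
    exact Subgroup.mem_centralizer_iff.mp (h3 hb) a rfl
  have h3 : A' ≤ A := hA.le_of_ge ⟨hA'n, h2⟩ hAA'
  exact hyA (h3 hyA')

theorem good_caseA {G : Type u} [Group G] [Finite G] [Nontrivial G] (hG : IsPGroup p G)
    {V : Type v} [AddCommGroup V] [Module ℚ V] [FiniteDimensional ℚ V]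
    (ρ : G →* Module.End ℚ V) (hinj : Function.Injective ρ)
    (C : Subgroup G) (hC : C.Normal) (hcyc : IsCyclic C)
    (hself : ∀ x, (∀ y ∈ C, x * y = y * x) → x ∈ C) : Good p G ⊥ (Module.finrank ℚ V) := by
  -- the order of `C`
  obtain ⟨k, hk⟩ := IsPGroup.iff_card.mp (hG.to_subgroup C)
  have hC0 : C ≠ ⊥ := by
    intro h
    have hc := hG.center_nontrivial
    obtain ⟨⟨z, hz⟩, hz1⟩ := exists_ne (1 : Subgroup.center G)
    have h1 : z ∈ C := hself z (fun y _ => ((Subgroup.mem_center_iff.mp hz) y).symm)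
    rw [h, Subgroup.mem_bot] at h1
    exact hz1 (Subtype.ext h1)
  have hk0 : 0 < k := by
    rcases Nat.eq_zero_or_pos k with h | h
    · exfalso
      rw [h, pow_zero, Subgroup.card_eq_one] at hk
      exact hC0 hk
    · exact h
  -- dimension
  obtain ⟨c, hc⟩ := hcyc.exists_generator
  have hord : orderOf (c : G) = p ^ k := by
    rw [Subgroup.orderOf_coe, orderOf_eq_card_of_forall_mem_zpowers hc, hk]
  have hdim := dim_bound ρ hinj c.1 k hk0 hord
  have hkpow : k ≤ p ^ (k - 1) := by
    have := Nat.lt_pow_self hp.out.one_lt (n := k - 1)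
    omega
  have hfin : (p ^ k) ^ (p - 1) ≤ p ^ (Module.finrank ℚ V) := by
    rw [← pow_mul]
    exact Nat.pow_le_pow_right hp.out.pos ((Nat.mul_le_mul_right _ hkpow).trans hdim)
  -- the index of `C`
  have hidx : C.index ≤ p ^ (k - 1) := by
    have h1 : (MulAut.conjNormal : G →* MulAut C).ker = C := by
      ext x
      rw [MonoidHom.mem_ker]
      constructor
      · intro hx
        apply hself
        intro y hy
        have h2 := congrArg (fun f : MulAut C => ((f ⟨y, hy⟩ : C) : G)) hx
        simp only [MulAut.conjNormal_apply, MulAut.one_apply] at h2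
        rwa [mul_inv_eq_iff_eq_mul] at h2
      · intro hx
        ext y
        rw [MulAut.conjNormal_apply, MulAut.one_apply]
        have h3 : (⟨x, hx⟩ : C) * y = y * ⟨x, hx⟩ := by
          obtain ⟨i, hi⟩ := Subgroup.mem_zpowers_iff.mp (hc ⟨x, hx⟩)
          obtain ⟨j, hj⟩ := Subgroup.mem_zpowers_iff.mp (hc y)
          rw [← hi, ← hj, ← zpow_add, ← zpow_add, add_comm]
        have h4 : x * y = y * x := congrArg Subtype.val h3
        rw [h4, mul_inv_cancel_right]
    have h2 : Nat.card (G ⧸ (MulAut.conjNormal : G →* MulAut C).ker) ∣ Nat.card (MulAut C) := by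
      rw [Nat.card_congr (QuotientGroup.quotientKerEquivRange
        (MulAut.conjNormal : G →* MulAut C)).toEquiv]
      exact Subgroup.card_subgroup_dvd_card _
    rw [h1, IsCyclic.card_mulAut, hk, Nat.totient_prime_pow hp.out hk0] at h2
    obtain ⟨j, hj⟩ := hG.index C
    have h3 : C.index ∣ p ^ (k - 1) := by
      have h4 : Nat.Coprime C.index (p - 1) := by
        rw [hj]
        apply Nat.Coprime.pow_left
        rw [Nat.Prime.coprime_iff_not_dvd hp.out]
        intro h
        have := Nat.le_of_dvd (by have := hp.out.one_lt; omega) h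
        have := hp.out.pos
        omega
      exact h4.dvd_of_dvd_mul_right h2
    exact Nat.le_of_dvd (pow_pos hp.out.pos _) h3
  have hquo : a p G C ≤ C.index := by
    have e2 := a_surj p (QuotientGroup.mk' C) (QuotientGroup.mk'_surjective C)
    rw [QuotientGroup.ker_mk'] at e2
    rw [e2]
    exact a_le_card p _ (hG.to_quotient C) rfl
  constructor
  · have h1 := a_mul p (⊥ : Subgroup G) C bot_le
    rw [Subgroup.bot_subgroupOf] at h1
    have h2 : a p C ⊥ ≤ p := a_cyclic p
    have h3 : a p G ⊥ ≤ p ^ k := by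
      calc a p G ⊥ ≤ a p G C * a p C ⊥ := h1
        _ ≤ p ^ (k - 1) * p := Nat.mul_le_mul (hquo.trans hidx) h2
        _ = p ^ k := by rw [← pow_succ, Nat.sub_add_cancel hk0]
    exact (Nat.pow_le_pow_left h3 _).trans hfin
  · intro K hK hf _
    rw [Subgroup.bot_subgroupOf]
    have hfK : ∀ f : G →* Multiplicative (ZMod p), ∀ x ∈ K, f x = 1 := by
      intro f x hx
      refine hf f ?_ x hx
      intro y hy
      rw [Subgroup.mem_bot] at hy
      rw [hy, map_one]
    have hmain : p * a p K ⊥ ≤ p ^ k := by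
      by_cases hCtop : C = ⊤
      · -- `G` itself is cyclic
        obtain ⟨f, x, hx⟩ := exists_hom hG
        have hKtop : K ≠ ⊤ := by
          intro h
          apply hx
          apply hfK f x
          rw [h]
          exact Subgroup.mem_top _
        have h1 := p_mul_card_subgroup hG K hKtop
        have h2 : Nat.card G = p ^ k := by
          rw [← hk, hCtop, Subgroup.card_top]
        rw [h2] at h1
        exact (Nat.mul_le_mul_left _ (a_le_card p _ (hG.to_subgroup K) rfl)).trans h1
      · have hnt : Nontrivial (G ⧸ C) := by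
          rw [QuotientGroup.nontrivial_iff]
          exact hCtop
        obtain ⟨f, x, hx⟩ := exists_hom (hG.to_quotient C)
        let Kb := K.map (QuotientGroup.mk' C)
        have hKb : Kb ≠ ⊤ := by
          intro h
          apply hx
          have hx' : x ∈ Kb := by rw [h]; exact Subgroup.mem_top _
          obtain ⟨y, hy, rfl⟩ := hx'
          exact hfK (f.comp (QuotientGroup.mk' C)) y hy
        have h1 := p_mul_card_subgroup (hG.to_quotient C) Kb hKb
        have h2 := a_mul p (⊥ : Subgroup K) (C.subgroupOf K) bot_le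
        rw [Subgroup.bot_subgroupOf] at h2
        have h3 : a p K (C.subgroupOf K) ≤ Nat.card Kb := by
          have e2 := a_surj p ((QuotientGroup.mk' C).subgroupMap K)
            ((QuotientGroup.mk' C).subgroupMap_surjective K)
          have e3 : ((QuotientGroup.mk' C).subgroupMap K).ker = C.subgroupOf K := by
            ext x
            rw [MonoidHom.mem_ker, Subgroup.mem_subgroupOf, Subtype.ext_iff]
            change ((x : G) : G ⧸ C) = 1 ↔ _
            rw [QuotientGroup.eq_one_iff]
          rw [e3] at e2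
          rw [e2]
          exact a_le_card p _ ((hG.to_quotient C).to_subgroup _) rfl
        have h4 : a p (C.subgroupOf K) ⊥ ≤ p := by
          have hc1 : IsCyclic (C.subgroupOf K) := by
            let φ : C.subgroupOf K →* C :=
              { toFun := fun x => ⟨x.1.1, x.2⟩
                map_one' := rfl
                map_mul' := fun _ _ => rfl }
            exact isCyclic_of_injective φ (by
              intro x y hxy
              exact Subtype.ext (Subtype.ext (congrArg (fun t : C => t.1) hxy)))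
          exact a_cyclic p
        have h5 : Nat.card (G ⧸ C) ≤ p ^ (k - 1) := hidx
        calc p * a p K ⊥ ≤ p * (Nat.card Kb * p) :=
              Nat.mul_le_mul_left _ (h2.trans (Nat.mul_le_mul h3 h4))
          _ = (p * Nat.card Kb) * p := by ring
          _ ≤ p ^ (k - 1) * p := Nat.mul_le_mul_right _ (h1.trans h5)
          _ = p ^ k := by rw [← pow_succ, Nat.sub_add_cancel hk0]
    exact (Nat.pow_le_pow_left hmain _).trans hfin

end

end Pool.Agent.Lib.MP_b7b920_al_h61
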