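import Mathlib

set_option autoImplicit false
set_option linter.unusedSectionVars false

namespace Pool.Agent.Lib.MP_b7b920_al_h61

open Subgroup Subgroup.leftTransversals

/-- the transfer of `f` at an element of the normal subgroup `H` all of whose nontrivial
conjugates are killed by `f` -/
theorem transfer_normal {G : Type*} [Group G] [Finite G] (H : Subgroup G) (hH : H.Normal)
    {A : Type*} [CommGroup A] (f : H →* A) (x : G) (hx : x ∈ H)
    (hq : ∀ g : G, g ∉ H → ∀ h : g⁻¹ * x * g ∈ H, f ⟨g⁻¹ * x * g, h⟩ = 1) :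
    MonoidHom.transfer f x = f ⟨x, hx⟩ := by
  classical
  let T : H.LeftTransversal := default
  rw [MonoidHom.transfer_def f T x]
  unfold diff
  simp only
  have hval : ∀ q : G ⧸ H,
      ((x • T).2.leftQuotientEquiv q : G) = x * (T.2.leftQuotientEquiv q : G) := by
    intro q
    rw [smul_apply_eq_smul_apply_inv_smul, smul_eq_mul]
    congr 3
    induction q using QuotientGroup.induction_on with
    | H y =>
      change ((x⁻¹ * y : G) : G ⧸ H) = (y : G ⧸ H)
      rw [QuotientGroup.eq]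
      have : (x⁻¹ * y)⁻¹ * y = y⁻¹ * x * (y⁻¹)⁻¹ := by group
      rw [this]
      exact hH.conj_mem x hx y⁻¹
  let _ := H.fintypeQuotientOfFiniteIndex
  have hmem : ∀ q : G ⧸ H, (T.2.leftQuotientEquiv q : G)⁻¹ * x * (T.2.leftQuotientEquiv q : G) ∈ H := by
    intro q
    have := hH.conj_mem x hx (T.2.leftQuotientEquiv q : G)⁻¹
    rwa [inv_inv] at this
  rw [Finset.prod_eq_single (1 : G ⧸ H)]
  · -- the coset of 1
    have h1 : (T.2.leftQuotientEquiv (1 : G ⧸ H) : G) ∈ H := by
      have := T.2.leftQuotientEquiv.symm_apply_apply (1 : G ⧸ H)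
      have h2 : ((T.2.leftQuotientEquiv (1 : G ⧸ H) : G) : G ⧸ H) = 1 := this
      rwa [QuotientGroup.eq_one_iff] at h2
    have h2 : f ⟨x, hx⟩ = f ((⟨_, h1⟩ : H)⁻¹ * ⟨x, hx⟩ * ⟨_, h1⟩) := by
      rw [map_mul, map_mul, map_inv, mul_comm (f ⟨_, h1⟩)⁻¹, inv_mul_cancel_right]
    rw [h2]
    congr 1
    apply Subtype.ext
    change (T.2.leftQuotientEquiv (1 : G ⧸ H) : G)⁻¹ * ((x • T).2.leftQuotientEquiv (1 : G ⧸ H) : G) =
      (T.2.leftQuotientEquiv (1 : G ⧸ H) : G)⁻¹ * x * (T.2.leftQuotientEquiv (1 : G ⧸ H) : G)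
    rw [hval, mul_assoc]
  · intro q _ hq1
    have h1 : (T.2.leftQuotientEquiv q : G) ∉ H := by
      intro h
      apply hq1
      have := T.2.leftQuotientEquiv.symm_apply_apply q
      have h2 : ((T.2.leftQuotientEquiv q : G) : G ⧸ H) = q := this
      rw [← h2, QuotientGroup.eq_one_iff]
      exact h
    rw [← hq _ h1 (hmem q)]
    congr 1
    apply Subtype.ext
    change (T.2.leftQuotientEquiv q : G)⁻¹ * ((x • T).2.leftQuotientEquiv q : G) =
      (T.2.leftQuotientEquiv q : G)⁻¹ * x * (T.2.leftQuotientEquiv q : G)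
    rw [hval, mul_assoc]
  · intro h
    exact absurd (Finset.mem_univ _) h

end Pool.Agent.Lib.MP_b7b920_al_h61
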