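import Mathlib
import Pool.Agent.Lib.MP_b7b920_al_h61.Rep
import Pool.Agent.Lib.MP_b7b920_al_h61.Transfer

set_option autoImplicit false
set_option linter.unusedSectionVars false

namespace Pool.Agent.Lib.MP_b7b920_al_h61

universe u v

section caseB

variable (p : ℕ) [hp : Fact p.Prime]

/-- the data of an elementary abelian normal subgroup of order `p ^ 2` -/
structure Data (G : Type u) [Group G] where
  zz : Multiplicative (ZMod p) →* G
  zzinj : Function.Injective zz
  zzc : ∀ i g, g * zz i = zz i * g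
  c : G
  cp : c ^ p = 1
  t : G →* Multiplicative (ZMod p)
  conj : ∀ g, g * c * g⁻¹ = c * zz (t g)

variable {p}

namespace Data

variable {G : Type u} [Group G] (D : Data p G)
  {V : Type v} [AddCommGroup V] [Module ℚ V] (ρ : G →* Module.End ℚ V)

/-- the fixed space of `c * zz i` -/
def E (i : Multiplicative (ZMod p)) : Submodule ℚ V := LinearMap.ker (ρ (D.c * D.zz i) - 1)

theorem mem_E {i : Multiplicative (ZMod p)} {v : V} :
    v ∈ D.E ρ i ↔ ρ (D.c * D.zz i) v = v := by
  rw [E, LinearMap.mem_ker, LinearMap.sub_apply, Module.End.one_apply, sub_eq_zero]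

theorem conj' (g : G) (i : Multiplicative (ZMod p)) :
    (D.c * D.zz (i * D.t g)) * g = g * (D.c * D.zz i) := by
  have h1 : g * D.c = D.c * D.zz (D.t g) * g := by
    rw [← D.conj g, inv_mul_cancel_right]
  calc D.c * D.zz (i * D.t g) * g = D.c * (D.zz (D.t g) * (D.zz i * g)) := by
        rw [mul_comm i, map_mul]; group
    _ = D.c * (D.zz (D.t g) * (g * D.zz i)) := by rw [D.zzc i g]
    _ = D.c * D.zz (D.t g) * g * D.zz i := by group
    _ = g * (D.c * D.zz i) := by rw [← h1]; group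

theorem map_E (g : G) (i : Multiplicative (ZMod p)) {v : V} (hv : v ∈ D.E ρ i) :
    ρ g v ∈ D.E ρ (i * D.t g) := by
  rw [mem_E] at hv ⊢
  rw [← Module.End.mul_apply, ← map_mul, D.conj', map_mul, Module.End.mul_apply, hv]

variable (hirr : ∀ W : Submodule ℚ V, (∀ g, ∀ w ∈ W, ρ g w ∈ W) → W = ⊥ ∨ W = ⊤)
  (hinj : Function.Injective ρ)

include hirr hinj

theorem fix_zz {j : Multiplicative (ZMod p)} (hj : j ≠ 1) {v : V} (hv : ρ (D.zz j) v = v) :
    v = 0 := by
  let W : Submodule ℚ V := LinearMap.ker (ρ (D.zz j) - 1)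
  have hW : ∀ w, w ∈ W ↔ ρ (D.zz j) w = w := by
    intro w
    change w ∈ LinearMap.ker (ρ (D.zz j) - 1) ↔ _
    rw [LinearMap.mem_ker, LinearMap.sub_apply, Module.End.one_apply, sub_eq_zero]
  have h1 : ∀ g, ∀ w ∈ W, ρ g w ∈ W := by
    intro g w hw
    rw [hW] at hw ⊢
    rw [← Module.End.mul_apply, ← map_mul, ← D.zzc, map_mul, Module.End.mul_apply, hw]
  rcases hirr W h1 with h | h
  · have : v ∈ W := (hW v).mpr hv
    rw [h, Submodule.mem_bot] at this
    exact this
  · exfalso
    apply hj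
    apply D.zzinj
    rw [map_one]
    apply hinj
    rw [map_one]
    ext w
    have : w ∈ W := by rw [h]; exact Submodule.mem_top
    exact (hW w).mp this

theorem E_inf {i j : Multiplicative (ZMod p)} (hij : i ≠ j) {v : V} (hi : v ∈ D.E ρ i)
    (hj : v ∈ D.E ρ j) : v = 0 := by
  rw [mem_E] at hi hj
  apply D.fix_zz ρ hirr hinj (j := j⁻¹ * i) (by
    intro h
    exact hij (by rw [inv_mul_eq_one] at h; exact h.symm))
  have h1 : ρ (D.zz i) v = ρ (D.zz j) v := by
    have h2 : ρ D.c⁻¹ (ρ (D.c * D.zz i) v) = ρ D.c⁻¹ (ρ (D.c * D.zz j) v) := by rw [hi, hj]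
    rw [← Module.End.mul_apply, ← Module.End.mul_apply, ← map_mul, ← map_mul,
      inv_mul_cancel_left, inv_mul_cancel_left] at h2
    exact h2
  rw [map_mul, map_mul, Module.End.mul_apply, h1, ← Module.End.mul_apply, ← map_mul, ← map_mul,
    inv_mul_cancel, map_one, map_one, Module.End.one_apply]

omit hirr hinj in
/-- the norm element -/
noncomputable def nrm (x : G) : Module.End ℚ V := ∑ k ∈ Finset.range p, ρ (x ^ k)

omit hirr hinj in
theorem mul_nrm {x : G} (hx : x ^ p = 1) : ρ x * nrm (p := p) ρ x = nrm (p := p) ρ x := by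
  have h1 : ∑ k ∈ Finset.range p, ρ (x ^ (k + 1)) = ∑ k ∈ Finset.range p, ρ (x ^ k) := by
    have e1 := Finset.sum_range_succ (fun k => ρ (x ^ k)) p
    have e2 := Finset.sum_range_succ' (fun k => ρ (x ^ k)) p
    rw [e1, pow_zero, hx] at e2
    exact (add_right_cancel e2).symm
  rw [nrm, Finset.mul_sum, ← h1]
  refine Finset.sum_congr rfl fun k _ => ?_
  rw [← map_mul, pow_succ']

theorem cz_pow (i : Multiplicative (ZMod p)) : (D.c * D.zz i) ^ p = 1 := by
  have hc : Commute D.c (D.zz i) := D.zzc i D.c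
  rw [hc.mul_pow, D.cp, one_mul, ← map_pow]
  have : i ^ p = 1 := by
    apply Multiplicative.toAdd.injective
    rw [toAdd_pow]
    simp
  rw [this, map_one]

theorem nrm_mem (i : Multiplicative (ZMod p)) (v : V) :
    nrm (p := p) ρ (D.c * D.zz i) v ∈ D.E ρ i := by
  rw [mem_E, ← Module.End.mul_apply, mul_nrm ρ (D.cz_pow ρ hirr hinj i)]

theorem sum_zz_eq_zero : (∑ i : Multiplicative (ZMod p), ρ (D.zz i)) = 0 := by
  ext v
  rw [LinearMap.zero_apply]
  obtain ⟨j, hj⟩ : ∃ j : Multiplicative (ZMod p), j ≠ 1 := exists_ne 1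
  apply D.fix_zz ρ hirr hinj hj
  rw [← Module.End.mul_apply, Finset.mul_sum]
  congr 1
  refine Fintype.sum_equiv (Equiv.mulLeft j) _ _ fun i => ?_
  rw [← map_mul, ← map_mul]
  rfl

theorem sum_nrm : (∑ i : Multiplicative (ZMod p), nrm (p := p) ρ (D.c * D.zz i)) =
    (p : ℚ) • (1 : Module.End ℚ V) := by
  unfold nrm
  rw [Finset.sum_comm]
  have h1 : ∀ k ∈ Finset.range p, (∑ i : Multiplicative (ZMod p), ρ ((D.c * D.zz i) ^ k)) =
      if k = 0 then (p : ℚ) • (1 : Module.End ℚ V) else 0 := by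
    intro k hk
    rw [Finset.mem_range] at hk
    split_ifs with h0
    · subst h0
      simp only [pow_zero, map_one, Finset.sum_const, Finset.card_univ]
      rw [← Nat.cast_smul_eq_nsmul ℚ]
      congr 2
      rw [Fintype.card_multiplicative, ZMod.card]
    · have h2 : (∑ i : Multiplicative (ZMod p), ρ ((D.c * D.zz i) ^ k)) =
          ρ (D.c ^ k) * ∑ i : Multiplicative (ZMod p), ρ (D.zz i) := by
        rw [Finset.mul_sum]
        have hu : IsUnit (k : ZMod p) := by
          rw [ZMod.isUnit_iff_coprime]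
          exact Nat.Coprime.symm (Nat.coprime_of_lt_prime (by omega) hk hp.out)
        have hbij : Function.Bijective (fun i : Multiplicative (ZMod p) => i ^ k) := by
          apply Finite.injective_iff_bijective.mp
          intro i j hij
          apply Multiplicative.toAdd.injective
          have h3 : (k : ZMod p) * Multiplicative.toAdd i = (k : ZMod p) * Multiplicative.toAdd j := by
            have := congrArg Multiplicative.toAdd hij
            rw [toAdd_pow, toAdd_pow, nsmul_eq_mul, nsmul_eq_mul] at this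
            exact this
          exact hu.mul_left_cancel h3
        refine Fintype.sum_bijective _ hbij _ _ fun i => ?_
        have hc : Commute D.c (D.zz i) := D.zzc i D.c
        rw [hc.mul_pow, map_mul, map_pow D.zz]
      rw [h2, D.sum_zz_eq_zero ρ hirr hinj, mul_zero]
  rw [Finset.sum_congr rfl h1, Finset.sum_ite_eq']
  rw [if_pos (Finset.mem_range.mpr hp.out.pos)]

/-- any vector is the sum of its components -/
theorem eq_sum (v : V) : v = (p : ℚ)⁻¹ • ∑ i : Multiplicative (ZMod p),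
    nrm (p := p) ρ (D.c * D.zz i) v := by
  have h1 := congrArg (fun f : Module.End ℚ V => f v) (D.sum_nrm ρ hirr hinj)
  simp only [LinearMap.sum_apply, LinearMap.smul_apply, Module.End.one_apply] at h1
  rw [h1, smul_smul, inv_mul_cancel₀, one_smul]
  exact_mod_cast hp.out.ne_zero

theorem nrm_self {v : V} (hv : v ∈ D.E ρ 1) : nrm (p := p) ρ (D.c * D.zz 1) v = (p : ℚ) • v := by
  rw [mem_E] at hv
  have h1 : ∀ k : ℕ, ρ ((D.c * D.zz 1) ^ k) v = v := by
    intro k
    induction k with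
    | zero => rw [pow_zero, map_one, Module.End.one_apply]
    | succ k ih => rw [pow_succ, map_mul, Module.End.mul_apply, hv, ih]
  rw [nrm, LinearMap.sum_apply, Finset.sum_congr rfl (fun k _ => h1 k), Finset.sum_const,
    Finset.card_range, Nat.cast_smul_eq_nsmul]

theorem nrm_other {j : Multiplicative (ZMod p)} (hj : j ≠ 1) {v : V} (hv : v ∈ D.E ρ j) :
    nrm (p := p) ρ (D.c * D.zz 1) v = 0 := by
  apply D.E_inf ρ hirr hinj (i := 1) (j := j) (fun h => hj h.symm) (D.nrm_mem ρ hirr hinj 1 v)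
  rw [mem_E] at hv ⊢
  rw [nrm, LinearMap.sum_apply, map_sum]
  refine Finset.sum_congr rfl fun k _ => ?_
  have hc : Commute (D.c * D.zz j) (D.c * D.zz 1) := by
    rw [map_one, mul_one]
    have h1 : Commute D.c (D.zz j) := D.zzc j D.c
    exact (Commute.refl D.c).mul_left h1.symm
  rw [← Module.End.mul_apply, ← map_mul, (hc.pow_right k).eq, map_mul, Module.End.mul_apply, hv]

/-- the sum of the other spaces -/
def W' : Submodule ℚ V := ⨆ j : {j : Multiplicative (ZMod p) // j ≠ 1}, D.E ρ j.1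

theorem disj : D.E ρ 1 ⊓ D.W' ρ = ⊥ := by
  rw [eq_bot_iff]
  rintro v ⟨h1, h2⟩
  have h3 : nrm (p := p) ρ (D.c * D.zz 1) v = 0 := by
    have : D.W' ρ ≤ LinearMap.ker (nrm (p := p) ρ (D.c * D.zz 1)) := by
      apply iSup_le
      intro j w hw
      rw [LinearMap.mem_ker]
      exact D.nrm_other ρ hirr hinj j.2 hw
    exact this h2
  rw [D.nrm_self ρ hirr hinj h1, smul_eq_zero] at h3
  rcases h3 with h3 | h3
  · exfalso
    exact hp.out.ne_zero (by exact_mod_cast h3)
  · rw [h3]
    exact Submodule.zero_mem _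

theorem sup_top : D.E ρ 1 ⊔ D.W' ρ = ⊤ := by
  rw [eq_top_iff]
  intro v _
  rw [D.eq_sum ρ hirr hinj v]
  apply Submodule.smul_mem
  apply Submodule.sum_mem
  intro i _
  by_cases hi : i = 1
  · subst hi
    exact Submodule.mem_sup_left (D.nrm_mem ρ hirr hinj 1 v)
  · exact Submodule.mem_sup_right (Submodule.mem_iSup_of_mem ⟨i, hi⟩ (D.nrm_mem ρ hirr hinj i v))

omit hirr hinj in
theorem inv_E (i : Multiplicative (ZMod p)) (g : D.t.ker) :
    ∀ w ∈ D.E ρ i, (ρ.comp D.t.ker.subtype) g w ∈ D.E ρ i := by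
  intro w hw
  have := D.map_E ρ g.1 i hw
  rw [(MonoidHom.mem_ker).mp g.2, mul_one] at this
  exact this

omit hirr hinj in
theorem inv_W' (g : D.t.ker) :
    ∀ w ∈ D.W' ρ, (ρ.comp D.t.ker.subtype) g w ∈ D.W' ρ := by
  intro w hw
  have h1 : D.W' ρ ≤ (D.W' ρ).comap (ρ g.1) := by
    apply iSup_le
    intro j w hw
    exact Submodule.mem_iSup_of_mem j (D.inv_E ρ j.1 g w hw)
  exact h1 hw

/-- action of the index `p` subgroup on the fixed spaces -/
noncomputable def τ (i : Multiplicative (ZMod p)) : D.t.ker →* Module.End ℚ (D.E ρ i) :=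
  subR (ρ.comp D.t.ker.subtype) (D.E ρ i) (D.inv_E ρ i)

omit hirr hinj in
theorem mem_ker_τ (i : Multiplicative (ZMod p)) (x : D.t.ker) :
    x ∈ (D.τ ρ i).ker ↔ ∀ w ∈ D.E ρ i, ρ x.1 w = w := mem_ker_subR

omit hirr hinj in
theorem finrank_le [FiniteDimensional ℚ V] (ht : Function.Surjective D.t)
    (i j : Multiplicative (ZMod p)) :
    Module.finrank ℚ (D.E ρ i) ≤ Module.finrank ℚ (D.E ρ j) := by
  obtain ⟨g, hg⟩ := ht (i⁻¹ * j)
  have h1 : ∀ w ∈ D.E ρ i, ρ g w ∈ D.E ρ j := by
    intro w hw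
    have := D.map_E ρ g i hw
    rw [hg, mul_inv_cancel_left] at this
    exact this
  apply LinearMap.finrank_le_finrank_of_injective (f := (ρ g).restrict h1)
  intro x y hxy
  have h2 : ρ g x.1 = ρ g y.1 := congrArg Subtype.val hxy
  apply Subtype.ext
  have h3 : ρ g⁻¹ (ρ g x.1) = ρ g⁻¹ (ρ g y.1) := by rw [h2]
  rw [← Module.End.mul_apply, ← Module.End.mul_apply, ← map_mul, inv_mul_cancel, map_one] at h3
  exact h3

omit hirr hinj in
theorem finrank_eq [FiniteDimensional ℚ V] (ht : Function.Surjective D.t)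
    (i j : Multiplicative (ZMod p)) :
    Module.finrank ℚ (D.E ρ i) = Module.finrank ℚ (D.E ρ j) :=
  le_antisymm (D.finrank_le ρ ht i j) (D.finrank_le ρ ht j i)

theorem exists_E_ne_bot [Nontrivial V] : ∃ i : Multiplicative (ZMod p), D.E ρ i ≠ ⊥ := by
  by_contra hcon
  push Not at hcon
  obtain ⟨v, hv⟩ := exists_ne (0 : V)
  apply hv
  rw [D.eq_sum ρ hirr hinj v, Finset.sum_eq_zero, smul_zero]
  intro j _
  have := D.nrm_mem ρ hirr hinj j v
  rw [hcon j, Submodule.mem_bot] at this
  exact this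

theorem E_ne_bot [FiniteDimensional ℚ V] [Nontrivial V] (ht : Function.Surjective D.t)
    (i : Multiplicative (ZMod p)) :
    D.E ρ i ≠ ⊥ := by
  intro h
  have h1 : ∀ j, D.E ρ j = ⊥ := by
    intro j
    apply Submodule.finrank_eq_zero.mp
    rw [D.finrank_eq ρ ht j i, h]
    exact finrank_bot ℚ V
  obtain ⟨v, hv⟩ := exists_ne (0 : V)
  apply hv
  rw [D.eq_sum ρ hirr hinj v, Finset.sum_eq_zero, smul_zero]
  intro j _
  have := D.nrm_mem ρ hirr hinj j v
  rw [h1 j, Submodule.mem_bot] at this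
  exact this

theorem finrank_add [FiniteDimensional ℚ V] :
    Module.finrank ℚ (D.E ρ 1) + Module.finrank ℚ (D.W' ρ) = Module.finrank ℚ V := by
  have h1 := Submodule.finrank_sup_add_finrank_inf_eq (D.E ρ 1) (D.W' ρ)
  rw [D.disj ρ hirr hinj, D.sup_top ρ hirr hinj, finrank_bot, finrank_top, add_zero] at h1
  exact h1.symm

end Data

end caseB

end Pool.Agent.Lib.MP_b7b920_al_h61
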