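import Mathlib
import Pool.Agent.Lib.MP_b7b920_al_h61.CaseB

set_option autoImplicit false
set_option linter.unusedSectionVars false

namespace Pool.Agent.Lib.MP_b7b920_al_h61

universe u v

variable (p : ℕ) [hp : Fact p.Prime]

theorem a_equiv {G H : Type*} [Group G] [Group H] (e : G ≃* H) : a p G ⊥ = a p H ⊥ := by
  have := a_surj p e.toMonoidHom e.surjective
  rwa [(MonoidHom.ker_eq_bot_iff e.toMonoidHom).mpr e.injective] at this

namespace Data

variable {p}
variable {G : Type u} [Group G] [Finite G] (hG : IsPGroup p G) (D : Data p G)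
  {V : Type v} [AddCommGroup V] [Module ℚ V] [FiniteDimensional ℚ V] [Nontrivial V]
  (ρ : G →* Module.End ℚ V)
  (hirr : ∀ W : Submodule ℚ V, (∀ g, ∀ w ∈ W, ρ g w ∈ W) → W = ⊥ ∨ W = ⊤)
  (hinj : Function.Injective ρ) (ht : Function.Surjective D.t)

include hG D hirr hinj ht

/-- the first half of Lemma D in the imprimitive case -/
theorem part1 (ih : ∀ m < Module.finrank ℚ V, Main.{u, v} p m) :
    (a p G ⊥) ^ (p - 1) ≤ p ^ (Module.finrank ℚ V) := by
  set n := Module.finrank ℚ V with hn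
  set m := Module.finrank ℚ (D.E ρ 1) with hm
  have hm0 : 0 < m := Submodule.one_le_finrank_iff.mpr (D.E_ne_bot ρ hirr hinj ht 1)
  obtain ⟨s, hs⟩ : ∃ s : Multiplicative (ZMod p), s ≠ 1 := exists_ne 1
  obtain ⟨g, hg⟩ := ht s
  have hms : Module.finrank ℚ (D.E ρ s) = m := D.finrank_eq ρ ht s 1
  -- the sum of the two fixed spaces
  have hdisj : D.E ρ 1 ⊓ D.E ρ s = ⊥ := by
    rw [eq_bot_iff]
    rintro v ⟨h1, h2⟩
    exact D.E_inf ρ hirr hinj (fun h => hs h.symm) h1 h2
  set U : Submodule ℚ V := D.E ρ 1 ⊔ D.E ρ s with hU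
  have hUfin : Module.finrank ℚ U = m + m := by
    have h1 := Submodule.finrank_sup_add_finrank_inf_eq (D.E ρ 1) (D.E ρ s)
    rw [hdisj, finrank_bot, add_zero, hms] at h1
    exact h1
  have h2m : m + m ≤ n := by
    rw [← hUfin]
    exact Submodule.finrank_le U
  have hmn : m < n := by omega
  -- kernels
  set S := D.t.ker with hS
  set N1 : Subgroup S := (D.τ ρ 1).ker with hN1
  set Ns : Subgroup S := (D.τ ρ s).ker with hNs
  -- elements of Ns acting trivially on V / E s
  have hfaith : ∀ (W : Submodule ℚ V) (x : G), (∀ w ∈ W, ρ x w = w) → (∀ v, ρ x v - v ∈ W) → x = 1 := by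
    intro W x h1 h2
    apply hinj
    rw [map_one]
    exact unipotent_trivial ρ W (isOfFinOrder_of_finite x) h1 h2
  -- Y : invariant homomorphisms
  let Y : Subgroup (S →* Multiplicative (ZMod p)) :=
    { carrier := {θ | ∀ (x : S) (h : g * x.1 * g⁻¹ ∈ S), θ ⟨g * x.1 * g⁻¹, h⟩ = θ x}
      mul_mem' := by
        intro θ θ' h1 h2 x h
        rw [MonoidHom.mul_apply, MonoidHom.mul_apply, h1 x h, h2 x h]
      one_mem' := by
        intro x h
        rfl
      inv_mem' := by
        intro θ h1 x h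
        rw [MonoidHom.inv_apply, MonoidHom.inv_apply, h1 x h] }
  have hSn : S.Normal := by rw [hS]; infer_instance
  have c1 : a p G ⊥ ≤ p * Nat.card Y := by
    have h1 := card_le_mul p (A p G ⊥) S Y (by
      intro f _ x h
      change f (g * x.1 * g⁻¹) = f x.1
      rw [map_mul, map_mul, map_inv, mul_comm (f g), mul_inv_cancel_right])
    have h2 : Nat.card (A p G ⊥ ⊓ A p G S : Subgroup (G →* Multiplicative (ZMod p))) ≤ p := by
      have h3 : A p G ⊥ ⊓ A p G S = A p G S := by
        apply inf_eq_right.mpr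
        intro f hf x hx
        rw [Subgroup.mem_bot] at hx
        rw [hx, map_one]
      rw [h3]
      have h4 : a p G S = a p (Multiplicative (ZMod p)) ⊥ := a_surj p D.t ht
      have h5 : a p (Multiplicative (ZMod p)) ⊥ ≤ p := a_cyclic p
      rw [← h4] at h5
      exact h5
    exact h1.trans (Nat.mul_le_mul_right _ h2)
  have c2 : Nat.card Y ≤ a p S (N1 ⊔ Ns) * a p Ns ⊥ := by
    have h1 := card_le_mul p Y Ns (A p Ns ⊥) (by
      intro f _ x hx
      rw [Subgroup.mem_bot] at hx
      rw [hx, map_one])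
    refine h1.trans (Nat.mul_le_mul_right _ ?_)
    refine Nat.card_le_card_of_injective
      (fun f : (Y ⊓ A p S Ns : Subgroup (S →* Multiplicative (ZMod p))) =>
        (⟨f.1, ?_⟩ : A p S (N1 ⊔ Ns))) ?_
    · have hle : N1 ⊔ Ns ≤ f.1.ker := by
        apply sup_le
        · intro x hx
          rw [MonoidHom.mem_ker]
          have hmem : g * x.1 * g⁻¹ ∈ S := hSn.conj_mem x.1 x.2 g
          rw [← f.2.1 x hmem]
          apply f.2.2
          rw [hNs, D.mem_ker_τ]
          intro w hw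
          have h3 : ρ g⁻¹ w ∈ D.E ρ 1 := by
            have := D.map_E ρ g⁻¹ s hw
            rw [map_inv, hg, mul_inv_cancel] at this
            exact this
          have h4 := (D.mem_ker_τ ρ 1 x).mp hx _ h3
          change ρ (g * x.1 * g⁻¹) w = w
          rw [map_mul, map_mul, Module.End.mul_apply, Module.End.mul_apply, h4,
            ← Module.End.mul_apply, ← map_mul, mul_inv_cancel, map_one, Module.End.one_apply]
        · intro x hx
          exact f.2.2 x hx
      intro x hx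
      exact hle hx
    · intro f f' hff
      exact Subtype.ext (congrArg (fun t : A p S (N1 ⊔ Ns) => t.1) hff)
  -- the action of Ns on V / E s
  have hSp : IsPGroup p S := hG.to_subgroup S
  have hinvs : ∀ x : Ns, ∀ w ∈ D.E ρ s, (ρ.comp (S.subtype.comp Ns.subtype)) x w ∈ D.E ρ s := by
    intro x w hw
    exact D.inv_E ρ s x.1 w hw
  have c3 : (a p Ns ⊥) ^ (p - 1) ≤ p ^ (n - m) := by
    have h1 : Module.finrank ℚ (V ⧸ D.E ρ s) = n - m := by
      have := Submodule.finrank_quotient_add_finrank (D.E ρ s)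
      omega
    have h2 := (ih (n - m) (by omega) Ns (hSp.to_subgroup Ns) (V ⧸ D.E ρ s)
      (quoR (ρ.comp (S.subtype.comp Ns.subtype)) (D.E ρ s) hinvs) h1).1
    have h3 : (quoR (ρ.comp (S.subtype.comp Ns.subtype)) (D.E ρ s) hinvs).ker = ⊥ := by
      rw [eq_bot_iff]
      intro x hx
      rw [mem_ker_quoR] at hx
      rw [Subgroup.mem_bot]
      have h4 := hfaith (D.E ρ s) x.1.1 (fun w hw => (D.mem_ker_τ ρ s x.1).mp x.2 w hw) hx
      exact Subtype.ext (Subtype.ext h4)
    rw [h3] at h2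
    exact h2
  have c4 := ih m hmn S hSp (D.E ρ 1) (D.τ ρ 1) rfl
  rw [← hN1] at c4
  have e0 : m + (n - m) = n := by omega
  by_cases hcase : ∃ f ∈ A p S N1, f ∉ A p S (N1 ⊔ Ns)
  · obtain ⟨f, hf, hf'⟩ := hcase
    have h1 := p_mul_a_le p (le_sup_left : N1 ≤ N1 ⊔ Ns) hf hf'
    calc (a p G ⊥) ^ (p - 1) ≤ (p * (a p S (N1 ⊔ Ns) * a p Ns ⊥)) ^ (p - 1) :=
          Nat.pow_le_pow_left (c1.trans (Nat.mul_le_mul_left _ c2)) _
      _ = (p * a p S (N1 ⊔ Ns)) ^ (p - 1) * (a p Ns ⊥) ^ (p - 1) := by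
          rw [← mul_assoc, mul_pow]
      _ ≤ (a p S N1) ^ (p - 1) * p ^ (n - m) :=
          Nat.mul_le_mul (Nat.pow_le_pow_left h1 _) c3
      _ ≤ p ^ m * p ^ (n - m) := Nat.mul_le_mul_right _ c4.1
      _ = p ^ n := by rw [← pow_add, e0]
  · push Not at hcase
    have hz : N1 ≠ ⊤ := by
      intro htop
      obtain ⟨v, hv, hv0⟩ := (Submodule.ne_bot_iff _).mp (D.E_ne_bot ρ hirr hinj ht 1)
      apply hv0
      have hzS : D.zz s ∈ S := by
        rw [hS, MonoidHom.mem_ker]
        apply D.zzinj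
        rw [map_one]
        have h1 := D.conj (D.zz s)
        have h2 : D.zz s * D.c * (D.zz s)⁻¹ = D.c := by
          rw [← D.zzc s D.c, mul_inv_cancel_right]
        rw [h2] at h1
        have h3 : D.c * 1 = D.c * D.zz (D.t (D.zz s)) := by rw [mul_one]; exact h1
        exact (mul_left_cancel h3).symm
      apply D.fix_zz ρ hirr hinj hs
      have : (⟨D.zz s, hzS⟩ : S) ∈ N1 := by rw [htop]; exact Subgroup.mem_top _
      exact (D.mem_ker_τ ρ 1 _).mp this v hv
    have hNsn : Ns.Normal := by rw [hNs]; infer_instance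
    have d1 := c4.2 Ns hNsn (by
      intro f hf x hx
      exact hcase f hf x (Subgroup.mem_sup_right hx)) hz
    have d2 := a_mul p (⊥ : Subgroup Ns) (N1.subgroupOf Ns) bot_le
    rw [Subgroup.bot_subgroupOf] at d2
    -- action of the intersection on V / U
    let L : Subgroup Ns := N1.subgroupOf Ns
    have hinvU : ∀ x : L, ∀ w ∈ U,
        (ρ.comp (S.subtype.comp (Ns.subtype.comp L.subtype))) x w ∈ U := by
      intro x w hw
      obtain ⟨w1, h1, w2, h2, rfl⟩ := Submodule.mem_sup.mp hw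
      rw [map_add]
      exact Submodule.add_mem_sup (D.inv_E ρ 1 x.1.1 w1 h1) (D.inv_E ρ s x.1.1 w2 h2)
    have d3 : (a p L ⊥) ^ (p - 1) ≤ p ^ (n - (m + m)) := by
      have h1 : Module.finrank ℚ (V ⧸ U) = n - (m + m) := by
        have := Submodule.finrank_quotient_add_finrank U
        omega
      have h2 := (ih (n - (m + m)) (by omega) L ((hSp.to_subgroup Ns).to_subgroup L) (V ⧸ U)
        (quoR (ρ.comp (S.subtype.comp (Ns.subtype.comp L.subtype))) U hinvU) h1).1
      have h3 : (quoR (ρ.comp (S.subtype.comp (Ns.subtype.comp L.subtype))) U hinvU).ker = ⊥ := by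
        rw [eq_bot_iff]
        intro x hx
        rw [mem_ker_quoR] at hx
        rw [Subgroup.mem_bot]
        have h4 := hfaith U x.1.1.1 (by
          intro w hw
          obtain ⟨w1, h1, w2, h2, rfl⟩ := Submodule.mem_sup.mp hw
          rw [map_add, (D.mem_ker_τ ρ s x.1.1).mp x.1.2 w2 h2,
            (D.mem_ker_τ ρ 1 x.1.1).mp x.2 w1 h1]) hx
        exact Subtype.ext (Subtype.ext (Subtype.ext h4))
      rw [h3] at h2
      exact h2
    have e1 : m + (m + (n - (m + m))) = n := by omega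
    have d4 : a p S (N1 ⊔ Ns) ≤ a p S N1 := a_mono p le_sup_left
    calc (a p G ⊥) ^ (p - 1) ≤ (p * (a p S N1 * (a p Ns L * a p L ⊥))) ^ (p - 1) :=
          Nat.pow_le_pow_left (c1.trans (Nat.mul_le_mul_left _ (c2.trans (Nat.mul_le_mul d4 d2)))) _
      _ = (a p S N1) ^ (p - 1) * ((p * a p Ns L) ^ (p - 1) * (a p L ⊥) ^ (p - 1)) := by
          rw [← mul_pow, ← mul_pow]
          congr 1
          ring
      _ ≤ p ^ m * (p ^ m * p ^ (n - (m + m))) :=
          Nat.mul_le_mul c4.1 (Nat.mul_le_mul d1 d3)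
      _ = p ^ n := by rw [← pow_add, ← pow_add, e1]

end Data

end Pool.Agent.Lib.MP_b7b920_al_h61
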