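import Mathlib
import Pool.Agent.Lib.MP_b7b920_al_h61.CaseB2

set_option autoImplicit false
set_option linter.unusedSectionVars false

namespace Pool.Agent.Lib.MP_b7b920_al_h61

universe u v

variable (p : ℕ) [hp : Fact p.Prime]

namespace Data

variable {p}
variable {G : Type u} [Group G] [Finite G] (hG : IsPGroup p G) (D : Data p G)
  {V : Type v} [AddCommGroup V] [Module ℚ V] [FiniteDimensional ℚ V] [Nontrivial V]
  (ρ : G →* Module.End ℚ V)
  (hirr : ∀ W : Submodule ℚ V, (∀ g, ∀ w ∈ W, ρ g w ∈ W) → W = ⊥ ∨ W = ⊤)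
  (hinj : Function.Injective ρ) (ht : Function.Surjective D.t)

include hG D hirr hinj ht

/-- the second half of Lemma D in the imprimitive case -/
theorem part2 (ih : ∀ m < Module.finrank ℚ V, Main.{u, v} p m) (K : Subgroup G) (hK : K.Normal)
    (hf : ∀ f ∈ A p G ⊥, ∀ x ∈ K, f x = 1) :
    (p * a p K ⊥) ^ (p - 1) ≤ p ^ (Module.finrank ℚ V) := by
  set n := Module.finrank ℚ V with hn
  set m := Module.finrank ℚ (D.E ρ 1) with hm
  have hm0 : 0 < m := Submodule.one_le_finrank_iff.mpr (D.E_ne_bot ρ hirr hinj ht 1)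
  have hadd : m + Module.finrank ℚ (D.W' ρ) = n := D.finrank_add ρ hirr hinj
  obtain ⟨s, hs⟩ : ∃ s : Multiplicative (ZMod p), s ≠ 1 := exists_ne 1
  have hW'0 : 0 < Module.finrank ℚ (D.W' ρ) := by
    apply Submodule.one_le_finrank_iff.mpr
    intro h
    apply D.E_ne_bot ρ hirr hinj ht s
    rw [eq_bot_iff, ← h]
    exact le_iSup (fun j : {j : Multiplicative (ZMod p) // j ≠ 1} => D.E ρ j.1) ⟨s, hs⟩
  set S := D.t.ker with hS
  set N1 : Subgroup S := (D.τ ρ 1).ker with hN1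
  have hSn : S.Normal := by rw [hS]; infer_instance
  have hSp : IsPGroup p S := hG.to_subgroup S
  have hKS : K ≤ S := by
    intro x hx
    rw [hS, MonoidHom.mem_ker]
    exact hf D.t (by
      intro y hy
      rw [Subgroup.mem_bot] at hy
      rw [hy, map_one]) x hx
  have htriv : ∀ x : G, (∀ w ∈ D.E ρ 1, ρ x w = w) → (∀ w ∈ D.W' ρ, ρ x w = w) → x = 1 := by
    intro x h1 h2
    apply hinj
    rw [map_one]
    ext v
    have : v ∈ D.E ρ 1 ⊔ D.W' ρ := by rw [D.sup_top ρ hirr hinj]; exact Submodule.mem_top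
    obtain ⟨w1, hw1, w2, hw2, rfl⟩ := Submodule.mem_sup.mp this
    rw [map_add, h1 w1 hw1, h2 w2 hw2]
    rfl
  -- everything inside `S`
  let KS : Subgroup S := K.subgroupOf S
  let kerW : Subgroup S := (subR (ρ.comp S.subtype) (D.W' ρ) (D.inv_W' ρ)).ker
  have mem_kerW : ∀ x : S, x ∈ kerW ↔ ∀ w ∈ D.W' ρ, ρ x.1 w = w := fun x => mem_ker_subR
  let M : Subgroup S := KS ⊓ kerW
  have hz : N1 ≠ ⊤ := by
    intro htop
    obtain ⟨v, hv, hv0⟩ := (Submodule.ne_bot_iff _).mp (D.E_ne_bot ρ hirr hinj ht 1)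
    apply hv0
    have hzS : D.zz s ∈ S := by
      rw [hS, MonoidHom.mem_ker]
      apply D.zzinj
      rw [map_one]
      have h1 := D.conj (D.zz s)
      have h2 : D.zz s * D.c * (D.zz s)⁻¹ = D.c := by
        rw [← D.zzc s D.c, mul_inv_cancel_right]
      rw [h2] at h1
      have h3 : D.c * 1 = D.c * D.zz (D.t (D.zz s)) := by rw [mul_one]; exact h1
      exact (mul_left_cancel h3).symm
    apply D.fix_zz ρ hirr hinj hs
    have : (⟨D.zz s, hzS⟩ : S) ∈ N1 := by rw [htop]; exact Subgroup.mem_top _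
    exact (D.mem_ker_τ ρ 1 _).mp this v hv
  -- all homomorphisms of `S` killing `N1` kill `M` (transfer)
  have hkill : ∀ f ∈ A p S N1, ∀ x ∈ M, f x = 1 := by
    intro f hfN x hx
    have h1 := transfer_normal S hSn f x.1 x.2 (by
      intro g hg h
      apply hfN
      rw [hN1, D.mem_ker_τ]
      intro w hw
      have h3 : ρ g w ∈ D.W' ρ := by
        have h4 := D.map_E ρ g 1 hw
        rw [one_mul] at h4
        have h5 : D.t g ≠ 1 := fun h => hg ((MonoidHom.mem_ker).mpr h)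
        exact Submodule.mem_iSup_of_mem (⟨D.t g, h5⟩ : {j : Multiplicative (ZMod p) // j ≠ 1}) h4
      have h6 := (mem_kerW x).mp hx.2 _ h3
      change ρ (g⁻¹ * x.1 * g) w = w
      rw [map_mul, map_mul, Module.End.mul_apply, Module.End.mul_apply, h6,
        ← Module.End.mul_apply, ← map_mul, inv_mul_cancel, map_one, Module.End.one_apply])
    have h2 : f ⟨x.1, x.2⟩ = f x := rfl
    rw [← h2, ← h1]
    exact hf _ (by
      intro y hy
      rw [Subgroup.mem_bot] at hy
      rw [hy, map_one]) x.1 hx.1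
  have hKSn : KS.Normal := hK.subgroupOf S
  have hkerWn : kerW.Normal := by
    change (subR (ρ.comp S.subtype) (D.W' ρ) (D.inv_W' ρ)).ker.Normal
    infer_instance
  have hMn : M.Normal := Subgroup.normal_inf_normal KS kerW
  have c1 := (ih m (by omega) S hSp (D.E ρ 1) (D.τ ρ 1) rfl).2 M hMn hkill hz
  have c2 : N1.subgroupOf M = ⊥ := by
    rw [eq_bot_iff]
    intro x hx
    rw [Subgroup.mem_bot]
    have h1 := htriv x.1.1 ((D.mem_ker_τ ρ 1 x.1).mp hx) ((mem_kerW x.1).mp x.2.2)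
    exact Subtype.ext (Subtype.ext h1)
  rw [← hN1, c2] at c1
  -- the action of `KS` on `W'`
  have hinvW : ∀ x : KS, ∀ w ∈ D.W' ρ, (ρ.comp (S.subtype.comp KS.subtype)) x w ∈ D.W' ρ := by
    intro x w hw
    exact D.inv_W' ρ x.1 w hw
  have c3 := (ih (Module.finrank ℚ (D.W' ρ)) (by omega) KS (hSp.to_subgroup KS) (D.W' ρ)
    (subR (ρ.comp (S.subtype.comp KS.subtype)) (D.W' ρ) hinvW) rfl).1
  set L : Subgroup KS := (subR (ρ.comp (S.subtype.comp KS.subtype)) (D.W' ρ) hinvW).ker with hL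
  have c4 := a_mul p (⊥ : Subgroup KS) L bot_le
  rw [Subgroup.bot_subgroupOf] at c4
  have c5 : a p L ⊥ = a p M ⊥ := by
    have e1 : L.map KS.subtype = M := by
      ext x
      constructor
      · rintro ⟨y, hy, rfl⟩
        refine ⟨y.2, (mem_kerW _).mpr ?_⟩
        have hy' : y ∈ (subR (ρ.comp (S.subtype.comp KS.subtype)) (D.W' ρ) hinvW).ker := hy
        have h9 : ∀ w ∈ D.W' ρ, (ρ.comp (S.subtype.comp KS.subtype)) y w = w :=
          mem_ker_subR.mp hy'
        exact h9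
      · intro hx
        refine ⟨⟨x, hx.1⟩, ?_, rfl⟩
        have h9 : ∀ w ∈ D.W' ρ, (ρ.comp (S.subtype.comp KS.subtype)) (⟨x, hx.1⟩ : KS) w = w :=
          (mem_kerW x).mp hx.2
        have : (⟨x, hx.1⟩ : KS) ∈
            (subR (ρ.comp (S.subtype.comp KS.subtype)) (D.W' ρ) hinvW).ker :=
          mem_ker_subR.mpr h9
        exact this
    rw [← e1]
    exact a_equiv p (L.equivMapOfInjective KS.subtype Subtype.val_injective)
  have c6 : a p KS ⊥ = a p K ⊥ := a_equiv p (Subgroup.subgroupOfEquivOfLe hKS)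
  rw [c5, c6] at c4
  calc (p * a p K ⊥) ^ (p - 1) ≤ (p * (a p KS L * a p M ⊥)) ^ (p - 1) :=
        Nat.pow_le_pow_left (Nat.mul_le_mul_left _ c4) _
    _ = (a p KS L) ^ (p - 1) * (p * a p M ⊥) ^ (p - 1) := by
        rw [← mul_pow]
        congr 1
        ring
    _ ≤ p ^ (Module.finrank ℚ (D.W' ρ)) * p ^ m := Nat.mul_le_mul c3 c1
    _ = p ^ n := by rw [← pow_add, add_comm, hadd]

theorem good (ih : ∀ m < Module.finrank ℚ V, Main.{u, v} p m) :
    Good p G ⊥ (Module.finrank ℚ V) := by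
  refine ⟨part1 hG D ρ hirr hinj ht ih, ?_⟩
  intro K hK hf _
  rw [Subgroup.bot_subgroupOf]
  exact part2 hG D ρ hirr hinj ht ih K hK hf

end Data

end Pool.Agent.Lib.MP_b7b920_al_h61
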