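import Mathlib
import Pool.Agent.Lib.MP_b7b920_al_h61.CaseA
import Pool.Agent.Lib.MP_b7b920_al_h61.CaseB3

set_option autoImplicit false
set_option linter.unusedSectionVars false

namespace Pool.Agent.Lib.MP_b7b920_al_h61

universe u v

section

variable {p : ℕ} [hp : Fact p.Prime]

theorem card_I : Nat.card (Multiplicative (ZMod p)) = p := by
  rw [Nat.card_congr Multiplicative.toAdd, Nat.card_zmod]

/-- the faithful irreducible case -/
theorem good_irr {G : Type u} [Group G] [Finite G] (hG : IsPGroup p G)
    {V : Type v} [AddCommGroup V] [Module ℚ V] [FiniteDimensional ℚ V]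
    (ρ : G →* Module.End ℚ V)
    (hirr : ∀ W : Submodule ℚ V, (∀ g, ∀ w ∈ W, ρ g w ∈ W) → W = ⊥ ∨ W = ⊤)
    (hinj : Function.Injective ρ) (ih : ∀ m < Module.finrank ℚ V, Main.{u, v} p m) :
    Good p G ⊥ (Module.finrank ℚ V) := by
  by_cases hs : Subsingleton G
  · have h1 : (⊥ : Subgroup G) = ⊤ := Subsingleton.elim _ _
    constructor
    · rw [h1, a_top p, one_pow]
      exact Nat.one_le_pow _ _ hp.out.pos
    · intro K _ _ h
      exact absurd h1 h
  rw [not_subsingleton_iff_nontrivial] at hs
  have hV : Nontrivial V := by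
    by_contra hV
    rw [not_nontrivial_iff_subsingleton] at hV
    obtain ⟨g, hg⟩ := exists_ne (1 : G)
    apply hg
    apply hinj
    ext v
    exact Subsingleton.elim _ _
  -- a central element of order p
  obtain ⟨z, hzc, hz⟩ : ∃ z : G, (∀ g, g * z = z * g) ∧ orderOf z = p := by
    have hc := hG.center_nontrivial
    obtain ⟨n, hn0, hn⟩ := (hG.to_subgroup (Subgroup.center G)).nontrivial_iff_card.mp hc
    obtain ⟨z, hz⟩ := exists_prime_orderOf_dvd_card' (G := Subgroup.center G) p
      (by rw [hn]; exact dvd_pow_self _ hn0.ne')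
    refine ⟨z.1, fun g => Subgroup.mem_center_iff.mp z.2 g, ?_⟩
    rw [Subgroup.orderOf_coe]
    exact hz
  let e : Multiplicative (ZMod p) ≃* Subgroup.zpowers z :=
    mulEquivOfPrimeCardEq (p := p) card_I (by rw [Nat.card_zpowers, hz])
  let zz : Multiplicative (ZMod p) →* G := (Subgroup.zpowers z).subtype.comp e.toMonoidHom
  have zzinj : Function.Injective zz := by
    intro i j hij
    exact e.injective (Subtype.ext hij)
  have zzc : ∀ i g, g * zz i = zz i * g := by
    intro i g
    obtain ⟨k, hk⟩ := Subgroup.mem_zpowers_iff.mp (e i).2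
    have h1 : zz i = z ^ k := hk.symm
    rw [h1]
    have h2 : Commute g z := hzc g
    exact h2.zpow_right k
  have hrange : zz.range.Normal := by
    constructor
    rintro _ ⟨i, rfl⟩ g
    rw [zzc i g, mul_inv_cancel_right]
    exact ⟨i, rfl⟩
  by_cases hc : ∃ c : G, c ^ p = 1 ∧ c ∉ zz.range ∧ ∀ g, c⁻¹ * (g * c * g⁻¹) ∈ zz.range
  · obtain ⟨c, hcp, hcr, hcg⟩ := hc
    choose t ht using hcg
    have hconj : ∀ g, g * c * g⁻¹ = c * zz (t g) := by
      intro g
      rw [ht g]
      group
    let D : Data p G :=
      { zz := zz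
        zzinj := zzinj
        zzc := zzc
        c := c
        cp := hcp
        t := MonoidHom.mk' t (by
          intro g h
          apply zzinj
          rw [map_mul]
          have h1 : g * h * c * (g * h)⁻¹ = g * (h * c * h⁻¹) * g⁻¹ := by group
          have h2 := hconj (g * h)
          rw [h1, hconj h] at h2
          have h3 : g * (c * zz (t h)) * g⁻¹ = (g * c * g⁻¹) * zz (t h) := by
            calc g * (c * zz (t h)) * g⁻¹ = g * c * (zz (t h) * g⁻¹) := by group
              _ = g * c * (g⁻¹ * zz (t h)) := by rw [zzc]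
              _ = (g * c * g⁻¹) * zz (t h) := by group
          rw [h3, hconj g, mul_assoc] at h2
          exact (mul_left_cancel h2).symm)
        conj := hconj }
    by_cases htop : Function.Surjective D.t
    · exact Data.good hG D ρ hirr hinj htop ih
    · exfalso
      have h1 : D.t.range = ⊥ := by
        have hcard : Nat.card (Multiplicative (ZMod p)) = p := card_I
        have : Fact (Nat.card (Multiplicative (ZMod p))).Prime := ⟨by rw [hcard]; exact hp.out⟩
        rcases D.t.range.eq_bot_or_eq_top_of_prime_card with h | h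
        · exact h
        · exact absurd (MonoidHom.range_eq_top.mp h) htop
      have h2 : ∀ g, D.t g = 1 := by
        intro g
        have : D.t g ∈ D.t.range := ⟨g, rfl⟩
        rw [h1, Subgroup.mem_bot] at this
        exact this
      obtain ⟨i, hi⟩ := D.exists_E_ne_bot ρ hirr hinj
      have h3 : D.E ρ i = ⊤ := by
        rcases hirr (D.E ρ i) (by
          intro g w hw
          have := D.map_E ρ g i hw
          rwa [h2, mul_one] at this) with h | h
        · exact absurd h hi
        · exact h
      have h4 : D.c * D.zz i = 1 := by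
        apply hinj
        rw [map_one]
        ext v
        have : v ∈ D.E ρ i := by rw [h3]; exact Submodule.mem_top
        exact (D.mem_E ρ).mp this
      apply hcr
      refine ⟨i⁻¹, ?_⟩
      rw [map_inv]
      exact (eq_inv_of_mul_eq_one_left h4).symm
  · push Not at hc
    obtain ⟨C, hCn, hCc, hCs⟩ := exists_max_abelian hG
    refine good_caseA hG ρ hinj C hCn ?_ hCs
    let _ : CommGroup C := { (inferInstance : Group C) with
      mul_comm := fun x y => Subtype.ext (hCc x.1 x.2 y.1 y.2) }
    refine isCyclic_of_card_le (p := p) (A := C) (hG.to_subgroup C) ?_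
    let Ω : Subgroup G :=
      { carrier := {x | x ∈ C ∧ x ^ p = 1}
        mul_mem' := by
          rintro x y ⟨hx, hx'⟩ ⟨hy, hy'⟩
          refine ⟨C.mul_mem hx hy, ?_⟩
          have : Commute x y := hCc x hx y hy
          rw [this.mul_pow, hx', hy', one_mul]
        one_mem' := ⟨C.one_mem, one_pow p⟩
        inv_mem' := by
          rintro x ⟨hx, hx'⟩
          exact ⟨C.inv_mem hx, by rw [inv_pow, hx', inv_one]⟩ }
    have hΩn : Ω.Normal := by
      constructor
      rintro x ⟨hx, hx'⟩ g
      refine ⟨hCn.conj_mem x hx g, ?_⟩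
      rw [conj_pow, hx', mul_one, mul_inv_cancel]
    have hΩ : Ω ≤ zz.range := by
      by_contra hcon
      obtain ⟨x, hx, hxr, hxg⟩ := exists_central_mod hG Ω zz.range hΩn hrange hcon
      obtain ⟨g, hg⟩ := hc x hx.2 hxr
      exact hg (hxg g)
    have hcardr : Nat.card zz.range = p :=
      (Nat.card_congr (MonoidHom.ofInjective zzinj).toEquiv).symm.trans card_I
    refine le_trans ?_ hcardr.le
    refine Nat.card_le_card_of_injective (fun x : (powMonoidHom p : C →* C).ker =>
      (⟨x.1.1, hΩ ⟨x.1.2, ?_⟩⟩ : zz.range)) ?_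
    · have := x.2
      rw [MonoidHom.mem_ker, powMonoidHom_apply] at this
      exact congrArg Subtype.val this
    · intro x y hxy
      exact Subtype.ext (Subtype.ext (congrArg (fun t : zz.range => t.1) hxy))

theorem main (n : ℕ) : Main.{u, v} p n := by
  induction n using Nat.strong_induction_on with
  | _ n ih =>
    intro G _ _ hG V _ _ _ ρ hn
    by_cases hred : ∃ W : Submodule ℚ V, (∀ g, ∀ w ∈ W, ρ g w ∈ W) ∧ W ≠ ⊥ ∧ W ≠ ⊤
    · obtain ⟨W, h, h0, h1⟩ := hred
      exact good_of_reducible p ih hG ρ hn W h h0 h1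
    · have hirr : ∀ W : Submodule ℚ V, (∀ g, ∀ w ∈ W, ρ g w ∈ W) → W = ⊥ ∨ W = ⊤ := by
        intro W hW
        by_contra hcon
        push Not at hcon
        exact hred ⟨W, hW, hcon.1, hcon.2⟩
      let π := QuotientGroup.mk' ρ.ker
      let ρ' : G ⧸ ρ.ker →* Module.End ℚ V := QuotientGroup.lift ρ.ker ρ (fun x hx => hx)
      have hcomp : ∀ g : G, ρ' (π g) = ρ g := fun g => rfl
      have hinj : Function.Injective ρ' := by
        rw [injective_iff_map_eq_one]
        intro x hx
        obtain ⟨g, rfl⟩ := QuotientGroup.mk'_surjective ρ.ker x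
        rw [QuotientGroup.mk'_apply, QuotientGroup.eq_one_iff]
        exact hx
      have hgood := good_irr (hG.to_quotient ρ.ker) ρ' (by
        intro W hW
        apply hirr W
        intro g w hw
        exact hW (π g) w hw) hinj (by rw [hn]; exact ih)
      have h1 := good_of_faithful_quotient p π (QuotientGroup.mk'_surjective ρ.ker) hgood
      have h2 : π.ker = ρ.ker := QuotientGroup.ker_mk' ρ.ker
      rw [h2, hn] at h1
      exact h1

end

/-- **Lemma D**: a finite `p`-group acting faithfully on a rational vector space of dimension `d`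
has at most `p ^ (d / (p - 1))` homomorphisms to `Z/p`. -/
theorem lemmaD {p : ℕ} [Fact p.Prime] {S : Type u} [Group S] [Finite S] (hS : IsPGroup p S)
    {V : Type v} [AddCommGroup V] [Module ℚ V] [FiniteDimensional ℚ V]
    (ρ : S →* Module.End ℚ V) (hρ : Function.Injective ρ) :
    (Nat.card (S →* Multiplicative (ZMod p))) ^ (p - 1) ≤ p ^ (Module.finrank ℚ V) := by
  have h1 := (main (p := p) (Module.finrank ℚ V) S hS V ρ rfl).1
  have h2 : ρ.ker = ⊥ := by
    rw [eq_bot_iff]
    intro x hx
    rw [Subgroup.mem_bot]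
    apply hρ
    rw [map_one]
    exact hx
  rw [h2] at h1
  have h3 : a p S ⊥ = Nat.card (S →* Multiplicative (ZMod p)) := by
    have : A p S ⊥ = ⊤ := by
      rw [eq_top_iff]
      intro f _ x hx
      rw [Subgroup.mem_bot] at hx
      rw [hx, map_one]
    rw [a, this]
    exact Nat.card_congr Subgroup.topEquiv.toEquiv
  rw [h3] at h1
  exact h1

end Pool.Agent.Lib.MP_b7b920_al_h61
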