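import Mathlib
import Pool.Agent.Lib.MP_b7b920_al_h61.LemmaD

set_option autoImplicit false
set_option linter.unusedSectionVars false

namespace Pool.Agent.Lib.MP_b7b920_al_h61

universe u v

/-- Lemma D for a faithful action by `ℤ`-linear maps on a lattice -/
theorem lemmaD_int {p : ℕ} [Fact p.Prime] {S : Type u} [Group S] [Finite S] (hS : IsPGroup p S)
    {L : Type v} [AddCommGroup L] [Module.Free ℤ L] [Module.Finite ℤ L]
    (ρ : S →* Module.End ℤ L) (hρ : Function.Injective ρ) :
    (Nat.card (S →* Multiplicative (ZMod p))) ^ (p - 1) ≤ p ^ (Module.finrank ℤ L) := by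
  classical
  let b := Module.Free.chooseBasis ℤ L
  let ι := Module.Free.ChooseBasisIndex ℤ L
  let e1 : Module.End ℤ L ≃ₐ[ℤ] Matrix ι ι ℤ := LinearMap.toMatrixAlgEquiv b
  let e2 : Matrix ι ι ℤ →+* Matrix ι ι ℚ := (Int.castRingHom ℚ).mapMatrix
  let e3 : Matrix ι ι ℚ ≃ₐ[ℚ] Module.End ℚ (ι → ℚ) := Matrix.toLinAlgEquiv'
  let ρ' : S →* Module.End ℚ (ι → ℚ) :=
    ((e3 : Matrix ι ι ℚ →* Module.End ℚ (ι → ℚ)).comp
      ((e2 : Matrix ι ι ℤ →* Matrix ι ι ℚ).comp
        (e1 : Module.End ℤ L →* Matrix ι ι ℤ))).comp ρ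
  have hinj : Function.Injective ρ' := by
    intro x y hxy
    have h1 : e3 (e2 (e1 (ρ x))) = e3 (e2 (e1 (ρ y))) := hxy
    have h2 := e3.injective h1
    have h3 : e1 (ρ x) = e1 (ρ y) := by
      ext i j
      have := congrFun (congrFun h2 i) j
      change ((e1 (ρ x) i j : ℤ) : ℚ) = ((e1 (ρ y) i j : ℤ) : ℚ) at this
      exact_mod_cast this
    exact hρ (e1.injective h3)
  have := lemmaD hS ρ' hinj
  rw [Module.finrank_fintype_fun_eq_card] at this
  rw [Module.finrank_eq_card_chooseBasisIndex]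
  exact this

/-- Lemma D for a faithful distributive action on a lattice -/
theorem lemmaD_lattice {p : ℕ} [Fact p.Prime] {S : Type u} [Group S] [Finite S]
    (hS : IsPGroup p S) {L : Type v} [AddCommGroup L] [Module.Free ℤ L] [Module.Finite ℤ L]
    [DistribMulAction S L] (hfaith : ∀ s : S, (∀ v : L, s • v = v) → s = 1) :
    (Nat.card (S →* Multiplicative (ZMod p))) ^ (p - 1) ≤ p ^ (Module.finrank ℤ L) := by
  refine lemmaD_int hS (DistribMulAction.toModuleEnd ℤ L) ?_
  rw [injective_iff_map_eq_one]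
  intro s hs
  apply hfaith
  intro v
  exact LinearMap.congr_fun hs v

/-- Lemma D when the acting group is given with a possibly non-faithful action: homomorphisms
killing the kernel -/
theorem lemmaD_kernel {p : ℕ} [Fact p.Prime] {S : Type u} [Group S] [Finite S]
    (hS : IsPGroup p S) {V : Type v} [AddCommGroup V] [Module ℚ V] [FiniteDimensional ℚ V]
    (ρ : S →* Module.End ℚ V) :
    (Nat.card {f : S →* Multiplicative (ZMod p) // ∀ x ∈ ρ.ker, f x = 1}) ^ (p - 1) ≤
      p ^ (Module.finrank ℚ V) :=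
  (main (p := p) (Module.finrank ℚ V) S hS V ρ rfl).1

end Pool.Agent.Lib.MP_b7b920_al_h61
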